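import Mathlib
import Pool.Agent.Helper11.CanThm
import Pool.Agent.Helper11.Dr.Orth
import Pool.Agent.Helper11.Dr.Den

/-!
# Change of bases
-/

universe u v w t

open CategoryTheory TensorProduct Finset Matrix

namespace Pool.Agent.Helper11.Dt

open Pool.Agent.Helper10 hiding IsAlgAut parityPart
open SmProjVar SPre Pool.Agent.Helper10.GIT Pool.Agent.Helper11.Iso Pool.Agent.Helper11.Can
open Pool.Agent.Helper11.Dr
open Pool.Agent.Helper11.Obs (IsPiece IsNumTrivial extProd wordClass prodVar prodFst prodProj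
  power wordVar)

section lin

variable {P : ℕ} {d : Fin P → ℕ} {κ : Type*} [Field κ]

/-- weights with the flags of optimal weights are optimal -/
theorem optimal_of_flag_eq {A N : Family d κ} {h₁ h' : Mats d κ} {γ γ' : WSpace d}
    (ho : Optimal A N h₁ γ) (hh' : ∀ c, (h' c).det ≠ 0) (G B : Mats d κ)
    (hGB : ∀ c, G c * B c = 1) (hGA : ∀ c, mten c (G c) ∈ A (two c))
    (hflag : ∀ c a, flag h' γ' c a = flag h₁ γ c a) : Optimal A N h' γ' := by
  refine ⟨adapted_of_flag_eq ho.1 hh' G B hGB hGA hflag, fun h'' γ'' ha => ?_⟩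
  rw [norm_eq_of_flag_eq ho.1.det hh' hflag]
  exact ho.2 h'' γ'' ha

lemma suppW_change {A A' : Family d κ} {M : Mats d κ}
    (hA : ∀ χ, A' χ = act (sh M χ) '' A χ) (h' : Mats d κ) :
    suppW h' A' = suppW (h' * M) A := by
  have key : ∀ (χ : Shape P) (z : Ten d κ χ), act (sh h' χ) (act (sh M χ) z) =
      act (sh (h' * M) χ) z := fun χ z => (act_mul (sh h' χ) (sh M χ) z).symm
  ext ⟨χ, w⟩
  constructor
  · rintro ⟨z, hz, hw⟩
    rw [hA] at hz
    obtain ⟨z, hz, rfl⟩ := hz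
    rw [key] at hw
    exact ⟨z, hz, hw⟩
  · rintro ⟨z, hz, hw⟩
    refine ⟨act (sh M χ) z, ?_, ?_⟩
    · change _ ∈ A' χ
      rw [hA]
      exact ⟨z, hz, rfl⟩
    · rw [key]
      exact hw

/-- optimal weights after a change of bases -/
theorem optimal_change {A N A' N' : Family d κ} {M : Mats d κ} (hM : ∀ c, (M c).det ≠ 0)
    (hA : ∀ χ, A' χ = act (sh M χ) '' A χ) (hN : ∀ χ, N' χ = act (sh M χ) '' N χ)
    {γ : WSpace d} (ho : Optimal A N M γ) : Optimal A' N' 1 γ := by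
  refine ⟨⟨fun c => ?_, ho.1.sum, fun w hw => ?_, fun w hw => ?_⟩, fun h' γ' ha => ?_⟩
  · rw [Pi.one_apply, Matrix.det_one]
    exact one_ne_zero
  · rw [suppW_change hA, one_mul] at hw
    exact ho.1.nonneg w hw
  · rw [suppW_change hN, one_mul] at hw
    exact ho.1.one_le w hw
  · refine ho.2 (h' * M) γ' ⟨fun c => ?_, ha.sum, fun w hw => ?_, fun w hw => ?_⟩
    · rw [Pi.mul_apply, Matrix.det_mul]
      exact mul_ne_zero (ha.det c) (hM c)
    · rw [← suppW_change hA] at hw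
      exact ha.nonneg w hw
    · rw [← suppW_change hN] at hw
      exact ha.one_le w hw

lemma ext_act {K : Type*} [Field K] [Algebra K κ] {A A' : Family d K} {M : Mats d K}
    (hA : ∀ χ, A' χ = act (sh M χ) '' A χ) (χ : Shape P) :
    ext κ A' χ = act (sh (fun c => (M c).map (algebraMap K κ)) χ) '' ext κ A χ := by
  have key : ∀ z : Ten d K χ, act (sh (fun c => (M c).map (algebraMap K κ)) χ) (emb κ z) =
      emb κ (act (sh M χ) z) := fun z => act_map (algebraMap K κ) (sh M χ) z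
  ext z
  constructor
  · rintro ⟨z, hz, rfl⟩
    rw [hA] at hz
    obtain ⟨z, hz, rfl⟩ := hz
    exact ⟨emb κ z, ⟨z, hz, rfl⟩, key z⟩
  · rintro ⟨_, ⟨z, hz, rfl⟩, rfl⟩
    rw [key]
    refine ⟨_, ?_, rfl⟩
    rw [hA]
    exact ⟨z, hz, rfl⟩

end lin

variable {k : Type u} [Field k] {K : Type v} [Field K] [CharZero K]
  (W : WeilCohomology.{u, v, w} k K)

section coh

variable {P : ℕ} {d : Fin P → ℕ} {V : Fin P → SmProjVar k}

/-- change of bases -/
def chg (M : Mats d K) (e : ∀ c, Fin (d c) → W.H (V c)) : ∀ c, Fin (d c) → W.H (V c) :=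
  fun c i => ∑ a, M c i a • e c a

lemma kten_chg (M : Mats d K) (e : ∀ c, Fin (d c) → W.H (V c)) {χ : Shape P}
    {T X : SmProjVar k} (p : T.toOver ⟶ X.toOver)
    (f : ∀ i : Fin χ.1, T.toOver ⟶ (V (χ.2 i)).toOver) (r : W.H T) (x : W.H X) :
    kten W (chg W M e) p f r x = act (sh M χ) (kten W e p f r x) := by
  funext w
  rw [kten_apply, act_apply]
  unfold chg
  rw [wordClass_expand W (fun i => e (χ.2 i)) p f x (fun i => M (χ.2 i) (w i)), pairing_sum]
  refine sum_congr rfl fun w' _ => ?_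
  rw [pairing_smul, kten_apply]
  rfl

lemma kA_chg (M : Mats d K) (e : ∀ c, Fin (d c) → W.H (V c)) (𝒳 : SmProjVar k → Prop) (n : ℕ)
    (χ : Shape P) : trunc n (kA W (chg W M e) 𝒳) χ = act (sh M χ) '' trunc n (kA W e 𝒳) χ := by
  ext z
  constructor
  · rintro ⟨⟨T, X, p, f, r, x, hX, hr, rfl⟩, hn⟩
    exact ⟨_, ⟨⟨T, X, p, f, r, x, hX, hr, rfl⟩, hn⟩, (kten_chg W M e p f r x).symm⟩
  · rintro ⟨_, ⟨⟨T, X, p, f, r, x, hX, hr, rfl⟩, hn⟩, rfl⟩
    exact ⟨⟨T, X, p, f, r, x, hX, hr, (kten_chg W M e p f r x).symm⟩, hn⟩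

lemma kN_chg (M : Mats d K) (e : ∀ c, Fin (d c) → W.H (V c)) (𝒳 : SmProjVar k → Prop) (n : ℕ)
    (χ : Shape P) : trunc n (kN W (chg W M e) 𝒳) χ = act (sh M χ) '' trunc n (kN W e 𝒳) χ := by
  ext z
  constructor
  · rintro ⟨⟨T, X, p, f, r, x, hX, hr, hr0, rfl⟩, hn⟩
    exact ⟨_, ⟨⟨T, X, p, f, r, x, hX, hr, hr0, rfl⟩, hn⟩, (kten_chg W M e p f r x).symm⟩
  · rintro ⟨_, ⟨⟨T, X, p, f, r, x, hX, hr, hr0, rfl⟩, hn⟩, rfl⟩
    exact ⟨⟨T, X, p, f, r, x, hX, hr, hr0, (kten_chg W M e p f r x).symm⟩, hn⟩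

/-- a basis of the span, after a change of bases -/
lemma span_chg {M : Mats d K} (hM : ∀ c, (M c).det ≠ 0) (e : ∀ c, Fin (d c) → W.H (V c))
    (c : Fin P) : Submodule.span K (Set.range (chg W M e c)) =
      Submodule.span K (Set.range (e c)) := by
  refine le_antisymm ?_ ?_
  · rw [Submodule.span_le]
    rintro _ ⟨i, rfl⟩
    exact Submodule.sum_mem _ fun a _ => Submodule.smul_mem _ _ (Submodule.subset_span ⟨a, rfl⟩)
  · rw [Submodule.span_le]
    rintro _ ⟨i, rfl⟩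
    have h1 : e c i = ∑ b, (M c)⁻¹ i b • chg W M e c b := by
      unfold chg
      simp only [smul_sum, smul_smul]
      rw [sum_comm]
      have h2 : ∀ a, ∑ b, ((M c)⁻¹ i b * M c b a) • e c a =
          (if i = a then (1 : K) else 0) • e c a := by
        intro a
        rw [← sum_smul, ← Matrix.mul_apply,
          Matrix.nonsing_inv_mul _ (isUnit_iff_ne_zero.mpr (hM c)), Matrix.one_apply]
      rw [sum_congr rfl fun a _ => h2 a]
      simp
    rw [SetLike.mem_coe, h1]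
    exact Submodule.sum_mem _ fun a _ => Submodule.smul_mem _ _ (Submodule.subset_span ⟨a, rfl⟩)

lemma linearIndependent_chg {M : Mats d K} (hM : ∀ c, (M c).det ≠ 0)
    (e : ∀ c, Fin (d c) → W.H (V c)) (c : Fin P) (hli : LinearIndependent K (e c)) :
    LinearIndependent K (chg W M e c) := by
  rw [Fintype.linearIndependent_iff] at hli ⊢
  intro g hg
  have h1 : ∑ a, (g ᵥ* M c) a • e c a = 0 := by
    rw [← hg]
    unfold chg
    simp only [smul_sum, smul_smul]
    rw [sum_comm]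
    refine sum_congr rfl fun a _ => ?_
    rw [← sum_smul]
    rfl
  have h2 : g ᵥ* M c = 0 := funext fun a => hli _ h1 a
  have h3 := congrArg (fun y => y ᵥ* (M c)⁻¹) h2
  simp only [Matrix.vecMul_vecMul, Matrix.mul_nonsing_inv _ (isUnit_iff_ne_zero.mpr (hM c)),
    Matrix.vecMul_one, Matrix.zero_vecMul] at h3
  exact fun i => congrFun h3 i

end coh

end Pool.Agent.Helper11.Dt
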