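import Mathlib
import Pool.Agent.Helper11.Can.Defs

/-!
# The determinant class of the canonical filtration: definitions (linear algebra)

Project DET (MP_5f0950_ag). Homogeneous parts of tensors, the tensors given by products of
determinants on blocks of letters, and mixed contractions.
-/

open Finset

namespace Pool.Agent.Helper11.Dt

open Pool.Agent.Helper10.GIT Pool.Agent.Helper11.GIT Pool.Agent.Helper11.Can

variable {P : ℕ} {d : Fin P → ℕ} {R : Type*} [CommRing R]

/-- the part of weight `s` of a tensor -/
noncomputable def hpart (γ : WSpace d) (s : ℝ) {χ : Shape P} (z : Ten d R χ) : Ten d R χ :=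
  open Classical in fun w => if wgt γ ⟨χ, w⟩ = s then z w else 0

/-- the parts of weight `s` of the tensors of a family -/
noncomputable def hfam (γ : WSpace d) (s : ℝ) (A : Family d R) : Family d R :=
  fun χ => hpart γ s '' A χ

/-- the part of weight zero of a matrix -/
noncomputable def hmat (γ : WSpace d) (c : Fin P) (M : Matrix (Fin (d c)) (Fin (d c)) R) :
    Matrix (Fin (d c)) (Fin (d c)) R :=
  open Classical in Matrix.of fun i j => if γ ⟨c, i⟩ + γ ⟨c, j⟩ = 0 then M i j else 0

/-- the family which consists of one tensor -/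
def single (η : Σ χ : Shape P, Ten d R χ) : Family d R :=
  fun χ => {z | (⟨χ, z⟩ : Σ χ : Shape P, Ten d R χ) = η}

/-- the family of the limits: the parts of weight zero of the tensors of `A`, the parts of weight
one of the tensors of `N`, and the tensor `η` -/
noncomputable def limA (γ : WSpace d) (A N : Family d R) (η : Σ χ : Shape P, Ten d R χ) :
    Family d R := fun χ => hfam γ 0 A χ ∪ hfam γ 1 N χ ∪ single η χ

/-- the tensors `z r` with `t r = 0` are in `A`, those with `t r = 1` are in `N`, and those with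
`t r = 2` are equal to `η` -/
def Mixed (A N : Family d R) (η : Σ χ : Shape P, Ten d R χ) {I : Type} {χ : I → Shape P}
    (z : ∀ r, Ten d R (χ r)) (t : I → Fin 3) : Prop :=
  ∀ r, (t r = 0 → z r ∈ A (χ r)) ∧ (t r = 1 → z r ∈ N (χ r)) ∧
    (t r = 2 → (⟨χ r, z r⟩ : Σ χ : Shape P, Ten d R χ) = η)

section blocks

/-! Blocks `x : X` of `len x` positions of class `cl x`; all positions are enumerated by
`e : (Σ x, Fin (len x)) ≃ Fin N`. -/

variable {X : Type} (cl : X → Fin P) {len : X → ℕ} {N : ℕ} (e : (Σ x : X, Fin (len x)) ≃ Fin N)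

/-- the shape of the words whose positions are arranged in blocks -/
abbrev bshape : Shape P := ⟨N, fun i => cl (e.symm i).1⟩

variable (d) in
/-- the words of this shape -/
def bword : (∀ q : (Σ x : X, Fin (len x)), Fin (d (cl q.1))) ≃ Word d (bshape cl e) :=
  Equiv.piCongrLeft' (fun q : (Σ x : X, Fin (len x)) => Fin (d (cl q.1))) e

lemma bword_apply (p : ∀ q : (Σ x : X, Fin (len x)), Fin (d (cl q.1))) (i : Fin N) :
    bword d cl e p i = p (e.symm i) := rfl

/-- the product, over all blocks, of the determinants of the coordinates with indices `L x s` -/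
noncomputable def bdet [Fintype X] (L : ∀ x, Fin (len x) → Fin (d (cl x))) :
    Ten d R (bshape cl e) := fun w =>
  ∏ x, Matrix.det (Matrix.of fun s s' =>
    if (bword d cl e).symm w ⟨x, s⟩ = L x s' then (1 : R) else 0)

lemma bdet_bword [Fintype X] (L : ∀ x, Fin (len x) → Fin (d (cl x)))
    (p : ∀ q : (Σ x : X, Fin (len x)), Fin (d (cl q.1))) :
    bdet (R := R) cl e L (bword d cl e p) =
      ∏ x, Matrix.det (Matrix.of fun s s' => if p ⟨x, s⟩ = L x s' then (1 : R) else 0) := by
  unfold bdet
  rw [Equiv.symm_apply_apply]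

lemma wgt_bword [Fintype X] (γ : WSpace d) (p : ∀ q : (Σ x : X, Fin (len x)), Fin (d (cl q.1))) :
    wgt γ (⟨bshape cl e, bword d cl e p⟩ : Words d) = ∑ q, γ ⟨cl q.1, p q⟩ := by
  unfold wgt
  exact Equiv.sum_comp e.symm fun q : (Σ x : X, Fin (len x)) => γ ⟨cl q.1, p q⟩

lemma act_bword [Fintype X] [DecidableEq X] (h : Mats d R) (z : Ten d R (bshape cl e))
    (p : ∀ q : (Σ x : X, Fin (len x)), Fin (d (cl q.1))) :
    act (sh h (bshape cl e)) z (bword d cl e p) =
      ∑ p' : (∀ q : (Σ x : X, Fin (len x)), Fin (d (cl q.1))),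
        (∏ q, h (cl q.1) (p q) (p' q)) * z (bword d cl e p') := by
  classical
  rw [act_apply, ← Equiv.sum_comp (bword d cl e)]
  refine sum_congr rfl fun p' _ => ?_
  congr 1
  exact Equiv.prod_comp e.symm fun q : (Σ x : X, Fin (len x)) => h (cl q.1) (p q) (p' q)

end blocks

end Pool.Agent.Helper11.Dt
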