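import Mathlib
import Pool.Agent.Helper11.Dt.St.T10
import Pool.Agent.Helper11.Dt.St.T14
import Pool.Agent.Helper11.Dt.St.T15
import Pool.Agent.Helper11.Dt.St.T16
import Pool.Agent.Helper11.Dt.St.T17
import Pool.Agent.Helper11.Dt.St.T18

/-!
# Contractions with decomposable tensors are given by numerically trivial classes
-/

universe u v w t

open CategoryTheory TensorProduct Finset

namespace Pool.Agent.Helper11.Dt

open Pool.Agent.Helper10 hiding IsAlgAut parityPart
open SmProjVar SPre Pool.Agent.Helper10.GIT Pool.Agent.Helper11.Iso Pool.Agent.Helper11.Can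
open Pool.Agent.Helper11.Obs (IsPiece IsNumTrivial extProd wordClass prodVar prodFst prodProj
  power wordVar)

section lin

variable {P : ℕ} {d : Fin P → ℕ} {K : Type*} [Field K]

/-- contractions are homogeneous in each tensor -/
lemma pform_smul (B : Mats d K) {I : Type} [Fintype I] {χ : I → Shape P} {S : Type} [Fintype S]
    (cl : S → Fin P) (σ : S × Fin 2 ≃ Pos χ) (a : I → K) (z : ∀ r, Ten d K (χ r)) :
    pform B cl σ (fun r => a r • z r) = (∏ r, a r) * pform B cl σ z := by
  classical
  unfold pform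
  rw [mul_sum]
  refine sum_congr rfl fun W _ => ?_
  simp only [Pi.smul_apply, smul_eq_mul]
  rw [prod_mul_distrib]
  ring

/-- the enumeration of the positions of `m` words with blocks, permuted by `τ` -/
def blockEquiv {X : Type} {len : X → ℕ} {N : ℕ} (e : (Σ x : X, Fin (len x)) ≃ Fin N) {m : ℕ}
    (τ : ∀ y : Fin m × X, Equiv.Perm (Fin (len y.2))) :
    Fin m × Fin N ≃ (Σ y : Fin m × X, Fin (len y.2)) where
  toFun ji := ⟨(ji.1, (e.symm ji.2).1), τ (ji.1, (e.symm ji.2).1) (e.symm ji.2).2⟩
  invFun q := (q.1.1, e ⟨q.1.2, (τ q.1).symm q.2⟩)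
  left_inv := by
    rintro ⟨j, i⟩
    simp
  right_inv := by
    rintro ⟨⟨j, x⟩, s⟩
    simp only
    have key : ∀ t : (Σ x : X, Fin (len x)), t = ⟨x, (τ (j, x)).symm s⟩ →
        (⟨(j, t.1), τ (j, t.1) t.2⟩ : (Σ y : Fin m × X, Fin (len y.2))) = ⟨(j, x), s⟩ := by
      rintro _ rfl
      simp
    exact key _ (e.symm_apply_apply _)

end lin

variable {k : Type u} [Field k] {K : Type v} [Field K] [CharZero K]
  (W : WeilCohomology.{u, v, w} k K)

lemma isNumTrivial_smul {T : SmProjVar k} {z : W.H T}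
    (hz : IsNumTrivial W.toCohomologyData T z) (a : K) :
    IsNumTrivial W.toCohomologyData T (a • z) := by
  refine ⟨Submodule.smul_mem _ _ hz.1, fun y hy => ?_⟩
  have h1 : W.pairing T (a • z) y = W.trL T ((a • z) * y) := rfl
  have h2 : W.trL T (z * y) = 0 := hz.2 y hy
  rw [h1, smul_mul_assoc, map_smul, h2, smul_zero]

lemma isNumTrivial_zero (T : SmProjVar k) : IsNumTrivial W.toCohomologyData T (0 : W.H T) := by
  refine ⟨Submodule.zero_mem _, fun y hy => ?_⟩
  have h1 : W.pairing T (0 : W.H T) y = W.trL T ((0 : W.H T) * y) := rfl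
  rw [h1, zero_mul, map_zero]

lemma isNumTrivial_add {T : SmProjVar k} {z z' : W.H T}
    (hz : IsNumTrivial W.toCohomologyData T z) (hz' : IsNumTrivial W.toCohomologyData T z') :
    IsNumTrivial W.toCohomologyData T (z + z') := by
  refine ⟨Submodule.add_mem _ hz.1 hz'.1, fun y hy => ?_⟩
  have h1 : W.pairing T (z + z') y = W.trL T ((z + z') * y) := rfl
  have h2 : W.trL T (z * y) = 0 := hz.2 y hy
  have h3 : W.trL T (z' * y) = 0 := hz'.2 y hy
  rw [h1, add_mul, map_add, h2, h3, add_zero]

lemma isNumTrivial_sum {T : SmProjVar k} {ι : Type*} (s : Finset ι) (z : ι → W.H T)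
    (hz : ∀ i ∈ s, IsNumTrivial W.toCohomologyData T (z i)) :
    IsNumTrivial W.toCohomologyData T (∑ i ∈ s, z i) := by
  classical
  induction s using Finset.induction_on with
  | empty => rw [sum_empty]; exact isNumTrivial_zero W T
  | insert a s ha ih =>
    rw [sum_insert ha]
    exact isNumTrivial_add W (hz a (mem_insert_self a s))
      (ih fun i hi => hz i (mem_insert_of_mem hi))

/-- the class of the whole variety is algebraic -/
lemma one_mem_algClasses (T : SmProjVar k) : (1 : W.H T) ∈ W.algClasses T := by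
  obtain ⟨y, -, hy⟩ := W.cycleClasses.cy_fundamental T
  exact Submodule.subset_span ⟨0, y, hy.symm⟩

section

variable {P : ℕ} {d : Fin P → ℕ} {V : Fin P → SmProjVar k}

/-- The contraction of tensors given by algebraic classes with decomposable tensors, as a trace. -/
theorem pform_eq_tr_word {X : SmProjVar k} {E : ∀ c, Submodule K (W.H (V c))}
    (hE : ∀ c, IsPiece W.toCohomologyData (V c) (E c)) (e : ∀ c, Fin (d c) → W.H (V c))
    (heE : ∀ c b, e c b ∈ E c) {B : Mats d K}
    (he : ∀ c, Piece (W.toSPre K) (V c) (d c) (fun b => Obs.one W K (e c b)) (B c))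
    {I : Type} [Fintype I] {χ : I → Shape P} {m : ℕ} {χ' : Shape P} {S : Type} [Fintype S]
    (cl : S → Fin P) (σ : S × Fin 2 ≃ Pos (sumShape χ (m + 1) χ')) (T A : I → SmProjVar k)
    (hA : ∀ r, PowLike X (A r)) (p : ∀ r, (T r).toOver ⟶ (A r).toOver)
    (f : ∀ r, ∀ i : Fin (χ r).1, (T r).toOver ⟶ (V ((χ r).2 i)).toOver)
    (ρ : ∀ r, W.H (T r)) (hρ : ∀ r, ρ r ∈ W.algClasses (T r)) (r₀ : I)
    (hr₀ : IsNumTrivial W.toCohomologyData (T r₀) (ρ r₀)) (x : ∀ r, W.H (A r))
    (hx : ∀ r, x r ∈ W.evK (A r) ∨ x r ∈ W.odK (A r)) :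
    ∃ (T' : SmProjVar k) (l : ℕ) (q : T'.toOver ⟶ (power X l).toOver) (x' : W.H (power X l))
      (ζ : W.H T') (g : ∀ (_ : Fin (m + 1)) (i : Fin χ'.1), T'.toOver ⟶ (V (χ'.2 i)).toOver)
      (c : K), IsNumTrivial W.toCohomologyData T' ζ ∧
      ∀ v : ∀ (_ : Fin (m + 1)) (i : Fin χ'.1), W.H (V (χ'.2 i)),
        (∀ j i, v j i ∈ E (χ'.2 i)) →
        pform B cl σ (sumTen (fun r => kten W e (p r) (f r) (ρ r) (x r))
          fun j w => ∏ i, W.pairing (V (χ'.2 i)) (v j i) (e (χ'.2 i) (w i))) =
        c * W.tr T' (ζ * (W.pull q x' * (List.ofFn fun j =>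
          (List.ofFn fun i => W.pull (g j i) (v j i)).prod).prod)) := by
  classical
  obtain ⟨x₀, εc, q₀, hx₀, hη⟩ := exists_eta_slot W X hE e heE χ'
  set Tη : SmProjVar k := prodVar X fun i => V (χ'.2 i) with hTη
  -- the data on the sum
  let TT : I ⊕ Fin (m + 1) → SmProjVar k := Sum.elim T fun _ => Tη
  let AA : I ⊕ Fin (m + 1) → SmProjVar k := Sum.elim A fun _ => Tη
  let pp : ∀ r, (TT r).toOver ⟶ (AA r).toOver := fun r => match r with
    | .inl r => p r
    | .inr _ => 𝟙 Tη.toOver
  let ff : ∀ r, ∀ i : Fin (sumShape χ (m + 1) χ' r).1,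
      (TT r).toOver ⟶ (V ((sumShape χ (m + 1) χ' r).2 i)).toOver := fun r => match r with
    | .inl r => f r
    | .inr _ => prodProj X fun i => V (χ'.2 i)
  let ρρ : ∀ r, W.H (TT r) := fun r => match r with
    | .inl r => ρ r
    | .inr _ => (1 : W.H Tη)
  have hqx : ∀ r, ∃ q : Bool, if q then x r ∈ W.odK (A r) else x r ∈ W.evK (A r) := by
    intro r
    rcases hx r with h | h
    · exact ⟨false, by simpa using h⟩
    · exact ⟨true, by simpa using h⟩
  choose qx hqx using hqx
  let ε : Fin ((Fintype.card I + m) + 1) ≃ I ⊕ Fin (m + 1) :=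
    (finSumFinEquiv (m := Fintype.card I) (n := m + 1)).symm.trans
      (Equiv.sumCongr (Fintype.equivFin I).symm (Equiv.refl _))
  obtain ⟨T', π, ζ, c, hζ, hform⟩ := pform_kten_eq W e he cl σ (s := Fintype.card I + m) ε TT AA
    pp ff ρρ (fun r => match r with
      | .inl r => hρ r
      | .inr _ => one_mem_algClasses W Tη) (.inl r₀) hr₀ (Sum.elim qx fun _ => q₀)
  -- the classes on retracts of powers
  let AX : I ⊕ Fin (m + 1) → SmProjVar k := Sum.elim A fun _ => X
  let pX : ∀ r, T'.toOver ⟶ (AX r).toOver := fun r => match r with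
    | .inl r => π (.inl r) ≫ p r
    | .inr j => π (.inr j) ≫ prodFst X fun i => V (χ'.2 i)
  let xX : ∀ r, W.H (AX r) := fun r => match r with
    | .inl r => x r
    | .inr _ => x₀
  obtain ⟨A', q', x', hA', hpull⟩ := exists_prod_pull W (𝒳 := PowLike X)
    (fun A B hA hB => hA.prod hB) (s := Fintype.card I + m) (fun k => AX (ε k)) (fun k => by
      change PowLike X (AX (ε k))
      rcases ε k with r | j
      · exact hA r
      · exact PowLike.refl X) (fun k => pX (ε k)) (fun k => xX (ε k))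
  obtain ⟨l, q, x'', hretr⟩ := wordClass_retract W hA' q' (V := fun i : Fin 0 => i.elim0)
    (fun i => i.elim0) x'
  have hretr' : W.pull q' x' = W.pull q x'' := by
    have h1 := hretr (fun i => i.elim0)
    unfold wordClass at h1
    rw [List.ofFn_zero, List.prod_nil] at h1
    have h2 : ∀ y : W.H T', y * (1 : W.H T') = y := fun y => mul_one y
    rwa [h2, h2] at h1
  refine ⟨T', l, q, x'', ζ, fun j i => π (.inr j) ≫ prodProj X (fun i => V (χ'.2 i)) i,
    εc ^ (m + 1) * c, hζ, fun v hv => ?_⟩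
  let xx : ∀ r, W.H (AA r) := fun r => match r with
    | .inl r => x r
    | .inr j => extProd W.toCohomologyData x₀ (v j)
  have h1 := hform xx (fun r => by
    rcases r with r | j
    · exact hqx r
    · exact (hη (v j) (hv j)).1)
  have h2 : sumTen (fun r => kten W e (p r) (f r) (ρ r) (x r))
      (fun (j : Fin (m + 1)) (w : Word d χ') =>
        ∏ i, W.pairing (V (χ'.2 i)) (v j i) (e (χ'.2 i) (w i))) =
      fun r => (Sum.elim (fun _ => (1 : K)) fun _ => εc : I ⊕ Fin (m + 1) → K) r •
        kten W e (pp r) (ff r) (ρρ r) (xx r) := by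
    funext r
    rcases r with r | j
    · change kten W e (p r) (f r) (ρ r) (x r) = (1 : K) • kten W e (p r) (f r) (ρ r) (x r)
      rw [one_smul]
    · funext w
      exact (hη (v j) (hv j)).2 w
  rw [h2, pform_smul, h1]
  have h3 : ∏ r : I ⊕ Fin (m + 1), (Sum.elim (fun _ => (1 : K)) fun _ => εc :
      I ⊕ Fin (m + 1) → K) r = εc ^ (m + 1) := by
    rw [Fintype.prod_sum_type]
    simp
  rw [h3, mul_assoc]
  congr 3
  -- the product
  rw [← hretr', ← hpull]
  have hsplit : ∀ G : I ⊕ Fin (m + 1) → W.H T',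
      (List.ofFn fun k => G (ε k)).prod =
        (List.ofFn fun i : Fin (Fintype.card I) => G (.inl ((Fintype.equivFin I).symm i))).prod *
          (List.ofFn fun j : Fin (m + 1) => G (.inr j)).prod := by
    intro G
    have h4 : List.ofFn (fun k : Fin ((Fintype.card I + m) + 1) => G (ε k)) =
        (List.ofFn fun i : Fin (Fintype.card I) => G (.inl ((Fintype.equivFin I).symm i))) ++
          List.ofFn fun j : Fin (m + 1) => G (.inr j) := by
      rw [← List.ofFn_fin_append]
      congr 1
      funext k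
      refine Fin.addCases (m := Fintype.card I) (n := m + 1) (fun i => ?_) (fun j => ?_) k
      · rw [Fin.append_left]
        change G ((Equiv.sumCongr (Fintype.equivFin I).symm (Equiv.refl _))
          (finSumFinEquiv.symm (Fin.castAdd (m + 1) i))) = _
        rw [finSumFinEquiv_symm_apply_castAdd]
        rfl
      · rw [Fin.append_right]
        change G ((Equiv.sumCongr (Fintype.equivFin I).symm (Equiv.refl _))
          (finSumFinEquiv.symm (Fin.natAdd (Fintype.card I) j))) = _
        rw [finSumFinEquiv_symm_apply_natAdd]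
        rfl
    rw [h4, List.prod_append]
  rw [hsplit (fun r => W.pull (π r ≫ pp r) (xx r)), hsplit (fun r => W.pull (pX r) (xX r)),
    mul_assoc]
  refine congrArg₂ (fun a b : W.H T' => a * b) rfl ?_
  refine congrArg₂ (fun a b : W.H T' => a * b) rfl ?_
  have h4 : ∀ j : Fin (m + 1), W.pull (π (.inr j) ≫ pp (.inr j)) (xx (.inr j)) =
      W.pull (pX (.inr j)) (xX (.inr j)) *
        (List.ofFn fun i => W.pull (π (.inr j) ≫ prodProj X (fun i => V (χ'.2 i)) i)
          (v j i)).prod := by
    intro j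
    have h5 := C11.wordClass_comp W (π (.inr j)) (prodFst X fun i => V (χ'.2 i))
      (prodProj X fun i => V (χ'.2 i)) x₀ (v j)
    have h6 : π (.inr j) ≫ pp (.inr j) = π (.inr j) := Category.comp_id _
    rw [h6]
    exact h5.symm
  simp only [h4]
  refine C4.ofFn_mul_central (A := W.H T') (fun j : Fin (m + 1) =>
    W.pull (pX (.inr j)) (xX (.inr j))) _ fun j y => ?_
  exact W.evK_comm _ _ _ (W.pull_evK _ _ hx₀)

end

end Pool.Agent.Helper11.Dt
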