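import Mathlib
import Pool.Agent.Helper11.Dt.Coh
import Pool.Agent.Helper11.Dt.St.T12

/-!
# The determinant class
-/

universe u v w t

open CategoryTheory TensorProduct Finset

namespace Pool.Agent.Helper11.Dt

open Pool.Agent.Helper10 hiding IsAlgAut parityPart
open SmProjVar SPre Pool.Agent.Helper10.GIT Pool.Agent.Helper11.Iso Pool.Agent.Helper11.Can
open Pool.Agent.Helper11.Obs (IsPiece IsNumTrivial extProd wordClass prodVar prodFst prodProj
  power wordVar)

variable {k : Type u} [Field k] {K : Type v} [Field K] [CharZero K]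
  (W : WeilCohomology.{u, v, w} k K)

section

variable {P : ℕ} {d : Fin P → ℕ} {V : Fin P → SmProjVar k}

lemma kten_add (e : ∀ c, Fin (d c) → W.H (V c)) {χ : Shape P} {T X : SmProjVar k}
    (p : T.toOver ⟶ X.toOver) (f : ∀ i : Fin χ.1, T.toOver ⟶ (V (χ.2 i)).toOver) (r : W.H T)
    (x x' : W.H X) : kten W e p f r (x + x') = kten W e p f r x + kten W e p f r x' := by
  funext w
  change W.trL T (r * W.pullA p (x + x') * kwd W e f w) =
    W.trL T (r * W.pullA p x * kwd W e f w) + W.trL T (r * W.pullA p x' * kwd W e f w)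
  rw [map_add, mul_add, add_mul, map_add]

/-- contractions are additive in each tensor -/
lemma pform_update_add {R : Type*} [Field R] (B : Mats d R) {I : Type} [Fintype I]
    [DecidableEq I] {χ : I → Shape P} {S : Type} [Fintype S]
    (cl : S → Fin P) (σ : S × Fin 2 ≃ Pos χ) (z z₁ z₂ : ∀ r, Ten d R (χ r)) (a : I)
    (h : z a = z₁ a + z₂ a) (h₁ : ∀ r, r ≠ a → z r = z₁ r) (h₂ : ∀ r, r ≠ a → z r = z₂ r) :
    pform B cl σ z = pform B cl σ z₁ + pform B cl σ z₂ := by
  classical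
  unfold pform
  rw [← sum_add_distrib]
  refine sum_congr rfl fun W _ => ?_
  rw [← mul_add]
  congr 1
  rw [← mul_prod_erase univ (fun r => z r (W r)) (mem_univ a),
    ← mul_prod_erase univ (fun r => z₁ r (W r)) (mem_univ a),
    ← mul_prod_erase univ (fun r => z₂ r (W r)) (mem_univ a), h, Pi.add_apply, add_mul]
  congr 1
  · congr 1
    exact prod_congr rfl fun r hr => by rw [h₁ r (ne_of_mem_erase hr)]
  · congr 1
    exact prod_congr rfl fun r hr => by rw [h₂ r (ne_of_mem_erase hr)]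

/-- **The determinant class.** -/
theorem exists_det_class {X : SmProjVar k} {E : ∀ c, Submodule K (W.H (V c))}
    (hE : ∀ c, IsPiece W.toCohomologyData (V c) (E c)) (e : ∀ c, Fin (d c) → W.H (V c))
    (heE : ∀ c b, e c b ∈ E c) {B : Mats d K}
    (he : ∀ c, Piece (W.toSPre K) (V c) (d c) (fun b => Obs.one W K (e c b)) (B c))
    {γ : WSpace d} (hB : ∀ c i j, B c i j ≠ 0 → γ ⟨c, i⟩ + γ ⟨c, j⟩ ≤ 0) {n : ℕ}
    (hwA : ∀ χ, ∀ z ∈ trunc n (kA W e (PowLike X)) χ, ∀ w : Word d χ, z w ≠ 0 → 0 ≤ wgt γ ⟨χ, w⟩)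
    (hwN : ∀ χ, ∀ z ∈ trunc n (kN W e (PowLike X)) χ, ∀ w : Word d χ, z w ≠ 0 → 1 ≤ wgt γ ⟨χ, w⟩)
    {I : Type} [Fintype I] {χ : I → Shape P} {m : ℕ} {Y : Type} [Fintype Y] [DecidableEq Y]
    (cl' : Y → Fin P) {len : Y → ℕ} {N : ℕ} (eN : (Σ y : Y, Fin (len y)) ≃ Fin N)
    (L : ∀ y, Fin (len y) → Fin (d (cl' y))) (hL : ∀ y, Function.Injective (L y)) (t : Y → ℝ)
    (hLt : ∀ y b, b ∈ Set.range (L y) ↔ γ ⟨cl' y, b⟩ ≤ t y) {S : Type} [Fintype S]
    (cl : S → Fin P) (σ : S × Fin 2 ≃ Pos (sumShape χ (m + 1) (bshape cl' eN)))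
    (z : ∀ r, Ten d K (χ r)) (J : Finset I) (hzA : ∀ r, z r ∈ trunc n (kA W e (PowLike X)) (χ r))
    (hzN : ∀ r ∈ J, z r ∈ trunc n (kN W e (PowLike X)) (χ r)) (hJ : J.Nonempty)
    (hb : ((m + 1 : ℕ) : ℝ) * -(∑ q : (Σ y : Y, Fin (len y)), γ ⟨cl' q.1, L q.1 q.2⟩) ≤ #J)
    (h0 : pform B cl σ (sumTen z fun _ => bdet cl' eN L) ≠ 0) {b' : ℕ}
    (e' : (Σ y : Fin (m + 1) × Y, Fin (len y.2)) ≃ Fin b') :
    ∃ (l : ℕ) (x : W.H (power X l)) (Z : W.H (wordVar X V l fun k => cl' (e'.symm k).1.2)),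
      IsNumTrivial W.toCohomologyData _ Z ∧
      ∀ v : ∀ q : (Σ y : Fin (m + 1) × Y, Fin (len y.2)), W.H (V (cl' q.1.2)),
        (∀ q, v q ∈ E (cl' q.1.2)) →
        W.pairing _ Z (extProd W.toCohomologyData x fun k => v (e'.symm k)) =
          ∏ y : Fin (m + 1) × Y, Matrix.det (Matrix.of fun s s' =>
            W.pairing (V (cl' y.2)) (v ⟨y, s⟩) (e (cl' y.2) (L y.2 s'))) := by
  classical
  obtain ⟨r₀, hr₀⟩ := hJ
  have h1 : ∀ r, ∃ (T A : SmProjVar k) (p : T.toOver ⟶ A.toOver)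
      (f : ∀ i : Fin (χ r).1, T.toOver ⟶ (V ((χ r).2 i)).toOver) (ρ : W.H T) (x : W.H A),
      PowLike X A ∧ ρ ∈ W.algClasses T ∧ (r ∈ J → IsNumTrivial W.toCohomologyData T ρ) ∧
      z r = kten W e p f ρ x ∧ (χ r).1 ≤ n := by
    intro r
    by_cases hr : r ∈ J
    · obtain ⟨⟨T, A, p, f, ρ, x, hA, hρ, hρ0, hz⟩, hn⟩ := hzN r hr
      exact ⟨T, A, p, f, ρ, x, hA, hρ, fun _ => ⟨hρ, hρ0⟩, hz, hn⟩
    · obtain ⟨⟨T, A, p, f, ρ, x, hA, hρ, hz⟩, hn⟩ := hzA r
      exact ⟨T, A, p, f, ρ, x, hA, hρ, fun h => absurd h hr, hz, hn⟩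
  choose T A p f ρ x hA hρ hρ0 hz hn using h1
  obtain rfl : z = fun r => kten W e (p r) (f r) (ρ r) (x r) := funext hz
  -- homogeneous classes
  obtain ⟨x, hx, h0⟩ : ∃ x : ∀ r, W.H (A r), (∀ r, x r ∈ W.evK (A r) ∨ x r ∈ W.odK (A r)) ∧
      pform B cl σ (sumTen (fun r => kten W e (p r) (f r) (ρ r) (x r))
        fun _ => bdet cl' eN L) ≠ 0 := by
    by_contra hcon
    push Not at hcon
    refine h0 (C4.multi_zero (fun x : ∀ r, W.H (A r) => pform B cl σ
      (sumTen (fun r => kten W e (p r) (f r) (ρ r) (x r)) fun _ => bdet cl' eN L))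
      (fun x a y y' => ?_) (fun r y => y ∈ W.evK (A r) ∨ y ∈ W.odK (A r)) (fun r y => ?_)
      (fun x hx => hcon x hx) x)
    · refine pform_update_add B cl σ _ _ _ (.inl a) ?_ ?_ ?_
      · change kten W e (p a) (f a) (ρ a) (Function.update x a (y + y') a) =
          kten W e (p a) (f a) (ρ a) (Function.update x a y a) +
            kten W e (p a) (f a) (ρ a) (Function.update x a y' a)
        rw [Function.update_self, Function.update_self, Function.update_self, kten_add]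
      · rintro (r | j) hr
        · have hra : r ≠ a := fun h => hr (by rw [h])
          change kten W e (p r) (f r) (ρ r) (Function.update x a (y + y') r) =
            kten W e (p r) (f r) (ρ r) (Function.update x a y r)
          rw [Function.update_of_ne hra, Function.update_of_ne hra]
        · rfl
      · rintro (r | j) hr
        · have hra : r ≠ a := fun h => hr (by rw [h])
          change kten W e (p r) (f r) (ρ r) (Function.update x a (y + y') r) =
            kten W e (p r) (f r) (ρ r) (Function.update x a y' r)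
          rw [Function.update_of_ne hra, Function.update_of_ne hra]
        · rfl
    · have h1 : y ∈ W.evK (A r) ⊔ W.odK (A r) := by
        rw [(W.isCompl (A r)).sup_eq_top]
        trivial
      obtain ⟨a, ha, b, hb, hab⟩ := Submodule.mem_sup.mp h1
      exact ⟨a, b, .inl ha, .inr hb, hab.symm⟩
  obtain ⟨C, hC⟩ : ∃ C, C = pform B cl σ (sumTen (fun r => kten W e (p r) (f r) (ρ r) (x r))
    fun _ => bdet cl' eN L) := ⟨_, rfl⟩
  rw [← hC] at h0
  -- the form as a trace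
  obtain ⟨T', l, q, x', ζ, g, c, hζ, hform⟩ := pform_eq_tr_word W (X := X) hE e heE he cl σ T A hA
    p f ρ hρ r₀ (hρ0 r₀ hr₀) x hx
  -- the classes, for each permutation
  have h2 : ∀ τ : (∀ y : Fin (m + 1) × Y, Equiv.Perm (Fin (len y.2))),
      ∃ Z : W.H (wordVar X V l fun k => cl' (e'.symm k).1.2), IsNumTrivial W.toCohomologyData _ Z ∧
      ∀ v : ∀ q : (Σ y : Fin (m + 1) × Y, Fin (len y.2)), W.H (V (cl' q.1.2)),
        (∀ q, v q ∈ E (cl' q.1.2)) →
        pform B cl σ (sumTen (fun r => kten W e (p r) (f r) (ρ r) (x r)) fun j w =>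
          ∏ i : Fin N, W.pairing (V (cl' (eN.symm i).1))
            (v ⟨(j, (eN.symm i).1), τ (j, (eN.symm i).1) (eN.symm i).2⟩)
            (e (cl' (eN.symm i).1) (w i))) =
        W.pairing _ Z (extProd W.toCohomologyData x' fun k => v (e'.symm k)) := by
    intro τ
    obtain ⟨g', cτ, hg'⟩ := exists_reorder_words W hE
      (fun q : (Σ y : Fin (m + 1) × Y, Fin (len y.2)) => cl' q.1.2) e' (blockEquiv eN τ) g
    obtain ⟨Z, hZ, hZ'⟩ := exists_push W q g' hζ
    refine ⟨(c * (cτ : K)) • Z, isNumTrivial_smul W hZ _, fun v hv => ?_⟩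
    have h3 := hform (fun j i => v (blockEquiv eN τ (j, i)))
      fun j i => hv (blockEquiv eN τ (j, i))
    refine h3.trans ((congrArg (fun y : W.H T' => c * W.tr T' (ζ * (W.pull q x' * y)))
      (hg' v hv)).trans ?_)
    have h4 : W.pairing (wordVar X V l fun k => cl' (e'.symm k).1.2) ((c * (cτ : K)) • Z)
        (extProd W.toCohomologyData x' fun k => v (e'.symm k)) =
        (c * (cτ : K)) * W.pairing _ Z
          (extProd W.toCohomologyData x' fun k => v (e'.symm k)) := by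
      change W.trL _ (((c * (cτ : K)) • Z) * _) = _ * W.trL _ (Z * _)
      rw [smul_mul_assoc, map_smul, smul_eq_mul]
    rw [h4, ← hZ' x' fun k => v (e'.symm k), mul_assoc]
    congr 1
    unfold wordClass
    rw [mul_smul_comm, mul_smul_comm, ← Int.cast_smul_eq_zsmul K, ← W.trL_apply, map_smul,
      smul_eq_mul]
    rfl
  choose Z hZ hZv using h2
  -- antisymmetrisation
  refine ⟨l, x', C⁻¹ • ∑ τ, ((∏ y, ((Equiv.Perm.sign (τ y) : ℤ) : K)) • Z τ),
    isNumTrivial_smul W (isNumTrivial_sum W _ _ fun τ _ => isNumTrivial_smul W (hZ τ) _) _,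
    fun v hv => ?_⟩
  have h3 := alt_pform B hB cl' eN L hL t hLt cl σ
    (fun r => kten W e (p r) (f r) (ρ r) (x r)) (fun r => if r ∈ J then 1 else 0)
    (fun r w hw => by
      split_ifs with hr
      · exact hwN (χ r) _ ⟨⟨T r, A r, p r, f r, ρ r, x r, hA r, hρ r, (hρ0 r hr).2, rfl⟩, hn r⟩
          w hw
      · exact hwA (χ r) _ ⟨⟨T r, A r, p r, f r, ρ r, x r, hA r, hρ r, rfl⟩, hn r⟩ w hw)
    (by simpa using hb)
    (fun q b => W.pairing (V (cl' q.1.2)) (v q) (e (cl' q.1.2) b))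
  rw [← hC] at h3
  have h4 : W.pairing (wordVar X V l fun k => cl' (e'.symm k).1.2)
      (C⁻¹ • ∑ τ, ((∏ y, ((Equiv.Perm.sign (τ y) : ℤ) : K)) • Z τ))
      (extProd W.toCohomologyData x' fun k => v (e'.symm k)) =
      C⁻¹ * ∑ τ, ((∏ y, ((Equiv.Perm.sign (τ y) : ℤ) : K)) * W.pairing _ (Z τ)
        (extProd W.toCohomologyData x' fun k => v (e'.symm k))) := by
    change W.trL _ ((C⁻¹ • _) * _) = _
    rw [smul_mul_assoc, map_smul, smul_eq_mul, sum_mul, map_sum]
    congr 1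
    refine sum_congr rfl fun τ _ => ?_
    rw [smul_mul_assoc, map_smul, smul_eq_mul]
    rfl
  rw [h4, ← mul_right_inj' h0, ← h3, ← mul_assoc, mul_inv_cancel₀ h0, one_mul]
  refine sum_congr rfl fun τ _ => ?_
  rw [← hZv τ v hv]

end

end Pool.Agent.Helper11.Dt
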