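import Mathlib
import Pool.Agent.Helper11.Dt.Defs
import Pool.Agent.Helper11.Dt.St.T1
import Pool.Agent.Helper11.Dt.St.T2
import Pool.Agent.Helper11.Dt.St.T4
import Pool.Agent.Helper11.Dt.St.T5
import Pool.Agent.Helper11.Dt.St.T7
import Pool.Agent.Helper11.Dt.St.T8
import Pool.Agent.Helper11.Dr.Lin2
import Pool.Agent.Helper11.Dr.Orth

/-!
# Nonzero contractions with block determinants
-/

universe v

open Finset Matrix

namespace Pool.Agent.Helper11.Dt

open Pool.Agent.Helper10.GIT Pool.Agent.Helper11.GIT Pool.Agent.Helper11.Can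
open Pool.Agent.Helper11.Dr

variable {P : ℕ} {d : Fin P → ℕ}

lemma act_sh_one {R : Type*} [CommRing R] {χ : Shape P} (z : Ten d R χ) :
    act (sh (1 : Mats d R) χ) z = z := act_one z

lemma emb_hpart {K : Type*} [Field K] {κ : Type*} [Field κ] [Algebra K κ] (γ : WSpace d) (s : ℝ)
    {χ : Shape P} (z : Ten d K χ) : emb κ (hpart γ s z) = hpart γ s (emb κ z) := by
  classical
  funext w
  simp only [emb, hpart]
  split_ifs
  · rfl
  · exact map_zero _

lemma emb_bdet {K : Type*} [Field K] {κ : Type*} [Field κ] [Algebra K κ] {X : Type} [Fintype X]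
    (cl : X → Fin P) {len : X → ℕ} {N : ℕ} (e : (Σ x : X, Fin (len x)) ≃ Fin N)
    (L : ∀ x, Fin (len x) → Fin (d (cl x))) :
    emb κ (bdet (R := K) cl e L) = bdet cl e L := by
  classical
  funext w
  simp only [emb, bdet, map_prod]
  refine prod_congr rfl fun x _ => ?_
  rw [RingHom.map_det]
  congr 1
  ext s s'
  simp only [RingHom.mapMatrix_apply, Matrix.map_apply, Matrix.of_apply]
  split_ifs
  · exact map_one _
  · exact map_zero _

/-- the weight of a word in the support of the block determinants -/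
lemma sum_of_bdet_ne_zero {R : Type*} [Field R] {X : Type} [Fintype X] (cl : X → Fin P)
    {len : X → ℕ} {N : ℕ} (e : (Σ x : X, Fin (len x)) ≃ Fin N)
    (L : ∀ x, Fin (len x) → Fin (d (cl x)))
    (p : ∀ q : (Σ x : X, Fin (len x)), Fin (d (cl q.1)))
    (hp : bdet (R := R) cl e L (bword d cl e p) ≠ 0) (ν : WSpace d) :
    ∑ q, ν ⟨cl q.1, p q⟩ = ∑ q : (Σ x : X, Fin (len x)), ν ⟨cl q.1, L q.1 q.2⟩ := by
  classical
  rw [bdet_bword, Finset.prod_ne_zero_iff] at hp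
  rw [Fintype.sum_sigma, Fintype.sum_sigma]
  refine sum_congr rfl fun x _ => ?_
  obtain ⟨π, hπ⟩ := exists_perm (hp x (mem_univ x))
  have h1 : ∀ s, p ⟨x, π s⟩ = L x s := by
    intro s
    by_contra hne
    exact hπ s (by rw [Matrix.of_apply, if_neg hne])
  rw [← Equiv.sum_comp π]
  exact sum_congr rfl fun s _ => by
    change ν ⟨cl x, p ⟨x, π s⟩⟩ = _
    rw [h1]

/-- **Nonzero contractions of the tensors with block determinants.** -/
theorem exists_mixed {K : Type v} [Field K] [CharZero K] {A N : Family d K}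
    (hNA : ∀ χ, N χ ⊆ A χ) {n : ℕ} (hn : ∀ χ, n < χ.1 → A χ = ∅) (G B : Mats d K)
    (hGB : ∀ c, G c * B c = 1) (hGA : ∀ c, mten c (G c) ∈ A (two c)) {γ : WSpace d}
    (ho : Optimal (ext (AlgebraicClosure K) A) (ext (AlgebraicClosure K) N) 1 γ) {D M : ℕ}
    (hD : 0 < D) (hint : ∀ l, ∃ n : ℤ, (D : ℝ) * γ l = n) (hM : ∀ l, |(D : ℝ) * γ l| ≤ M)
    {len : Fin P × Fin M → ℕ} {N' : ℕ} (e : (Σ x : Fin P × Fin M, Fin (len x)) ≃ Fin N')
    (L : ∀ x : Fin P × Fin M, Fin (len x) → Fin (d x.1)) (hL : ∀ x, Function.Injective (L x))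
    (hLt : ∀ x b, b ∈ Set.range (L x) ↔ γ ⟨x.1, b⟩ ≤ -((((x.2 : ℕ) + 1 : ℕ) : ℝ) / D)) :
    ∃ (I : Type) (_ : Fintype I) (χ : I → Shape P) (S : Type) (_ : Fintype S) (cl : S → Fin P)
      (σ : S × Fin 2 ≃ Pos χ) (z : ∀ r, Ten d K (χ r)) (t : I → Fin 3),
      Mixed A N ⟨bshape (fun x : Fin P × Fin M => x.1) e, bdet (fun x => x.1) e L⟩ z t ∧
      (∃ r, t r = 2) ∧ (#{r | t r = 2} : ℝ) *
        -(∑ q : (Σ x : Fin P × Fin M, Fin (len x)), γ ⟨q.1.1, L q.1 q.2⟩) ≤ #{r | t r = 1} ∧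
      pform B cl σ z ≠ 0 := by
  classical
  set κ := AlgebraicClosure K with hκ
  by_contra hcon
  have H : ∀ (I : Type) [Fintype I] (χ : I → Shape P) (S : Type) [Fintype S] (cl : S → Fin P)
      (σ : S × Fin 2 ≃ Pos χ) (z : ∀ r, Ten d K (χ r)) (t : I → Fin 3),
      Mixed A N ⟨bshape (fun x : Fin P × Fin M => x.1) e, bdet (fun x => x.1) e L⟩ z t →
      (∃ r, t r = 2) → (#{r | t r = 2} : ℝ) *
        -(∑ q : (Σ x : Fin P × Fin M, Fin (len x)), γ ⟨q.1.1, L q.1 q.2⟩) ≤ #{r | t r = 1} →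
      pform B cl σ z = 0 := by
    intro I _ χ S _ cl σ z t h1 h2 h3
    by_contra h4
    exact hcon ⟨I, _, χ, S, _, cl, σ, z, t, h1, h2, h3, h4⟩
  set η : Σ χ : Shape P, Ten d K χ :=
    ⟨bshape (fun x : Fin P × Fin M => x.1) e, bdet (fun x => x.1) e L⟩ with hη
  set ω : ℝ := -(∑ q : (Σ x : Fin P × Fin M, Fin (len x)), γ ⟨q.1.1, L q.1 q.2⟩) with hω
  have hinj : Function.Injective (algebraMap K κ) := (algebraMap K κ).injective
  have had := ho.1
  have hdet1 : ∀ c, ((1 : Mats d κ) c).det ≠ 0 := had.det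
  -- weights of the supports
  have hA : ∀ χ, ∀ z ∈ A χ, ∀ w : Word d χ, z w ≠ 0 → 0 ≤ wgt γ ⟨χ, w⟩ := by
    intro χ z hz w hw
    refine had.nonneg ⟨χ, w⟩ ⟨emb κ z, ⟨z, hz, rfl⟩, ?_⟩
    rw [act_sh_one]
    exact fun h0 => hw (hinj (by rw [map_zero]; exact h0))
  have hN : ∀ χ, ∀ z ∈ N χ, ∀ w : Word d χ, z w ≠ 0 → 1 ≤ wgt γ ⟨χ, w⟩ := by
    intro χ z hz w hw
    refine had.one_le ⟨χ, w⟩ ⟨emb κ z, ⟨z, hz, rfl⟩, ?_⟩
    rw [act_sh_one]
    exact fun h0 => hw (hinj (by rw [map_zero]; exact h0))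
  have hηw : ∀ w, η.2 w ≠ 0 → wgt γ (⟨η.1, w⟩ : Words d) = -ω := by
    intro w hw
    obtain ⟨p, rfl⟩ := (bword d (fun x : Fin P × Fin M => x.1) e).surjective w
    have h1 := sum_of_bdet_ne_zero (fun x : Fin P × Fin M => x.1) e L p hw γ
    rw [hω, neg_neg, ← h1]
    exact wgt_bword _ e γ p
  -- the Gram matrices
  have hdetG : ∀ c, (G c).det ≠ 0 := by
    intro c h0
    have h1 := congrArg Matrix.det (hGB c)
    rw [Matrix.det_mul, h0, zero_mul, Matrix.det_one] at h1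
    exact zero_ne_one h1
  have hmapGB : ∀ c, (G c).map (algebraMap K κ) * (B c).map (algebraMap K κ) = 1 := by
    intro c
    rw [← Matrix.map_mul, hGB, Matrix.map_one _ (map_zero _) (map_one _)]
  have hgw := fun c => gram_weights had c ((G c).map (algebraMap K κ)) (by
    have h1 : ((G c).map (algebraMap K κ)).det = algebraMap K κ (G c).det :=
      (RingHom.map_det _ _).symm
    rw [h1]
    exact fun h0 => hdetG c (hinj (by rw [h0, map_zero]))) ⟨_, hGA c, emb_mten κ c (G c)⟩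
  have hG : ∀ c i j, G c i j ≠ 0 → 0 ≤ γ ⟨c, i⟩ + γ ⟨c, j⟩ := by
    intro c i j hij
    refine (hgw c).1 i j ?_
    rw [Pi.one_apply, Matrix.transpose_one, Matrix.one_mul, Matrix.mul_one]
    exact fun h0 => hij (hinj (by rw [map_zero]; exact h0))
  have hB : ∀ c i j, B c i j ≠ 0 → γ ⟨c, i⟩ + γ ⟨c, j⟩ ≤ 0 := by
    intro c i j hij
    refine (hgw c).2 i j ?_
    rw [Pi.one_apply, Matrix.transpose_one, Matrix.one_mul, Matrix.mul_one,
      Matrix.inv_eq_right_inv (hmapGB c)]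
    exact fun h0 => hij (hinj (by rw [map_zero]; exact h0))
  have hpz := pZero_limit hA hN η hηw B hB H
  have hGB₀ : ∀ c, hmat γ c (G c) * hmat γ c (B c) = 1 := fun c =>
    hmat_mul γ c (hG c) (hB c) (hGB c)
  have hGA₀ : ∀ c, mten c (hmat γ c (G c)) ∈ hfam γ 0 A (two c) := fun c =>
    ⟨mten c (G c), hGA c, hpart_mten γ c (G c)⟩
  have hn₀ : ∀ χ : Shape P, max n N' < χ.1 → limA γ A N η χ = ∅ := by
    intro χ hχ
    rw [Set.eq_empty_iff_forall_notMem]
    rintro z ((⟨z', hz', -⟩ | ⟨z', hz', -⟩) | hz)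
    · rw [hn χ (lt_of_le_of_lt (le_max_left _ _) hχ)] at hz'
      exact hz'
    · have h1 := hNA χ hz'
      rw [hn χ (lt_of_le_of_lt (le_max_left _ _) hχ)] at h1
      exact h1
    · have h1 : χ = η.1 := congrArg Sigma.fst hz
      rw [h1] at hχ
      exact absurd (lt_of_le_of_lt (le_max_right _ _) hχ) (lt_irrefl N')
  obtain ⟨F, h, μ, hoμ, hFμ, -, -, -, hsym, -⟩ := exists_filtration2.{v, v}
    (A := limA γ A N η) (N := single η) (fun χ z hz => .inr hz) hn₀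
    (fun c => hmat γ c (G c)) (fun c => hmat γ c (B c)) hGB₀
    (fun c => .inl (.inl (hGA₀ c))) hpz
  -- stability under the diagonal matrices
  choose nn hnn using hint
  have hstabK : ∀ c a, ∀ x ∈ F c a,
      (Matrix.diagonal fun i => (2 : K) ^ nn ⟨c, i⟩).mulVec x ∈ F c a := by
    have hemb : ∀ {χ : Shape P} (z : Ten d K χ), emb K z = z := fun z => rfl
    have hembV : ∀ {k : ℕ} (x : Fin k → K), embV K x = x := fun x => rfl
    have key : ∀ χ (C : Family d K) (z : Ten d K χ), z ∈ C χ → (∃ s, ∀ w, z w ≠ 0 →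
        wgt γ (⟨χ, w⟩ : Words d) = s) →
        act (sh (fun c => Matrix.diagonal fun i => (2 : K) ^ nn ⟨c, i⟩) χ) (emb K z) ∈
          Submodule.span K (ext K C χ) := by
      rintro χ C z hz ⟨s, hs⟩
      obtain ⟨b, hb⟩ := act_diag hD hnn (two_ne_zero (α := K)) z hs
      rw [hemb, hb]
      exact Submodule.smul_mem _ _ (Submodule.subset_span ⟨z, hz, hemb z⟩)
    have hpart_w : ∀ (s : ℝ) {χ : Shape P} (z : Ten d K χ) (w : Word d χ), hpart γ s z w ≠ 0 →
        wgt γ (⟨χ, w⟩ : Words d) = s := by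
      intro s χ z w hw
      by_contra hne
      exact hw (if_neg hne)
    have hsingle : ∀ χ, ∀ z ∈ single η χ, ∃ s, ∀ w, z w ≠ 0 →
        wgt γ (⟨χ, w⟩ : Words d) = s := by
      intro χ z hz
      refine ⟨-ω, ?_⟩
      have hz' : (⟨χ, z⟩ : Σ χ : Shape P, Ten d K χ) = η := hz
      rw [← hz'] at hηw
      exact hηw
    intro c a x hx
    have h1 := hsym K (fun c => Matrix.diagonal fun i => (2 : K) ^ nn ⟨c, i⟩)
      (fun c => by
        rw [Matrix.det_diagonal]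
        exact Finset.prod_ne_zero_iff.mpr fun i _ => zpow_ne_zero _ two_ne_zero)
      (fun χ z hz => key χ _ z hz (by
        rcases hz with (⟨z', -, rfl⟩ | ⟨z', -, rfl⟩) | hz
        · exact ⟨0, hpart_w 0 z'⟩
        · exact ⟨1, hpart_w 1 z'⟩
        · exact hsingle χ z hz))
      (fun χ z hz => key χ _ z hz (hsingle χ z hz)) c a x hx
    rw [hembV] at h1
    have h2 : Submodule.span K (embV K '' (F c a : Set (Fin (d c) → K))) = F c a := by
      have h3 : embV K '' (F c a : Set (Fin (d c) → K)) = F c a := Set.image_id' _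
      rw [h3, Submodule.span_eq]
    rwa [h2] at h1
  have hstab : ∀ c a, ∀ x ∈ flag h μ c a,
      (Matrix.diagonal fun i => (2 : κ) ^ nn ⟨c, i⟩).mulVec x ∈ flag h μ c a := by
    intro c a x hx
    rw [← hFμ c a] at hx ⊢
    induction hx using Submodule.span_induction with
    | mem x hx =>
      obtain ⟨x, hx, rfl⟩ := hx
      refine Submodule.subset_span ⟨_, hstabK c a x hx, ?_⟩
      rw [embV_mulVec]
      congr 1
      rw [Matrix.diagonal_map (map_zero _)]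
      congr 1
      funext i
      rw [map_zpow₀, map_ofNat]
    | zero => rw [Matrix.mulVec_zero]; exact Submodule.zero_mem _
    | add x y _ _ hx hy => rw [Matrix.mulVec_add]; exact Submodule.add_mem _ hx hy
    | smul r x _ hx => rw [Matrix.mulVec_smul]; exact Submodule.smul_mem _ _ hx
  obtain ⟨h', γ', μ', hh', hom, hfγ, hfμ⟩ := exists_common_basis hD hnn hoμ.1.det hstab
  -- adaptedness
  have haγ := adapted_of_flag_eq had hh' (fun c => (G c).map (algebraMap K κ))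
    (fun c => (B c).map (algebraMap K κ)) hmapGB (fun c => ⟨_, hGA c, emb_mten κ c (G c)⟩) hfγ
  have hnγ := norm_eq_of_flag_eq hdet1 hh' hfγ
  have hmapGB₀ : ∀ c, (hmat γ c (G c)).map (algebraMap K κ) *
      (hmat γ c (B c)).map (algebraMap K κ) = 1 := by
    intro c
    rw [← Matrix.map_mul, hGB₀, Matrix.map_one _ (map_zero _) (map_one _)]
  have hGAκ : ∀ c, mten c ((hmat γ c (G c)).map (algebraMap K κ)) ∈
      ext κ (hfam γ 0 A) (two c) := fun c => ⟨_, hGA₀ c, emb_mten κ c _⟩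
  have hsubA : ∀ χ, ext κ (hfam γ 0 A) χ ⊆ ext κ (limA γ A N η) χ := fun χ =>
    Set.image_mono fun z hz => .inl (.inl hz)
  have haμ := adapted_of_flag_eq hoμ.1 hh' (fun c => (hmat γ c (G c)).map (algebraMap K κ))
    (fun c => (hmat γ c (B c)).map (algebraMap K κ)) hmapGB₀ (fun c => hsubA _ (hGAκ c)) hfμ
  -- the scalar product is nonnegative
  have hlim : ∀ (s : ℝ) (C : Family d K), (∀ χ, hfam γ s C χ ⊆ limA γ A N η χ) →
      ∀ w ∈ suppW h' (ext κ C), wgt γ' w = s → 0 ≤ wgt μ' w := by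
    rintro s C hC ⟨χ, w⟩ ⟨_, ⟨z, hz, rfl⟩, hw⟩ hws
    refine haμ.nonneg ⟨χ, w⟩ ⟨emb κ (hpart γ s z), ⟨_, hC χ ⟨z, hz, rfl⟩, rfl⟩, ?_⟩
    rw [emb_hpart, ← hws, act_hpart hom]
    exact hw
  have hinner := inner_nonneg_of_limit (ext_mono κ hNA) (ext_empty κ hn) haγ
    (fun γ'' ha => by rw [hnγ]; exact ho.2 _ _ ha) haμ.sum
    (hlim 0 A fun χ z hz => .inl (.inl hz)) (hlim 1 N fun χ z hz => .inl (.inr hz))
  -- duality
  have ha₀ : Adapted (ext κ (hfam γ 0 A)) (fun _ => ∅) h' μ' := by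
    refine ⟨hh', haμ.sum, ?_, ?_⟩
    · rintro ⟨χ, w⟩ ⟨z, hz, hw⟩
      exact haμ.nonneg _ ⟨z, hsubA χ hz, hw⟩
    · rintro ⟨χ, w⟩ ⟨z, hz, hw⟩
      exact absurd hz (Set.notMem_empty z)
  have hdual : ∀ c, ∃ π : Equiv.Perm (Fin (d c)), ∀ b,
      γ' ⟨c, π b⟩ = - γ' ⟨c, b⟩ ∧ μ' ⟨c, π b⟩ = - μ' ⟨c, b⟩ := by
    intro c
    obtain ⟨π, hπ⟩ := exists_dual_perm (μ := γ') ha₀
      (fun c => (hmat γ c (G c)).map (algebraMap K κ))
      (fun c => (hmat γ c (B c)).map (algebraMap K κ)) hmapGB₀ hGAκ (by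
        rintro ⟨χ, w⟩ ⟨_, ⟨_, ⟨z, hz, rfl⟩, rfl⟩, hw⟩
        rw [emb_hpart] at hw
        exact wgt_of_act_hpart hom _ hw) c
    exact ⟨π, fun b => ⟨(hπ b).2, (hπ b).1⟩⟩
  -- the weights `γ'` are weights of `γ`
  have hγγ : ∀ l, ∃ l', γ' l = γ l' := by
    rintro ⟨c, i⟩
    have h1 : ∃ b, h' c i b ≠ 0 := by
      by_contra h0
      push Not at h0
      exact hh' c (Matrix.det_eq_zero_of_row_eq_zero i h0)
    obtain ⟨b, hb⟩ := h1
    exact ⟨⟨c, b⟩, hom c i b hb⟩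
  -- the block determinants
  obtain ⟨p, hp, hpν⟩ := exists_bdet_word (fun x : Fin P × Fin M => x.1) e hh' hom
    (fun x => (((x.2 : ℕ) + 1 : ℕ) : ℝ) / D) L hL hLt
  have h1 := haμ.one_le ⟨_, bword d (fun x : Fin P × Fin M => x.1) e p⟩
    ⟨emb κ (bdet (R := K) (fun x : Fin P × Fin M => x.1) e L), ⟨_, rfl, rfl⟩, by
      change act (sh h' (bshape (fun x : Fin P × Fin M => x.1) e))
        (emb κ (bdet (R := K) (fun x : Fin P × Fin M => x.1) e L)) _ ≠ 0
      rw [emb_bdet]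
      exact hp⟩
  rw [wgt_bword, hpν, sum_blocks (γ := γ') hD (fun l => by
      obtain ⟨l', hl'⟩ := hγγ l
      exact ⟨nn l', by rw [hl']; exact hnn l'⟩) (fun l => by
      obtain ⟨l', hl'⟩ := hγγ l
      rw [hl']
      exact hM l') hdual] at h1
  have h2 : 0 ≤ (D / 2 : ℝ) * ∑ l, γ' l * μ' l := mul_nonneg (by positivity) hinner
  linarith

end Pool.Agent.Helper11.Dt
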