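import Mathlib
import Pool.Agent.Helper11.Dr.Types

/-!
# Flags with numerically trivial determinant: definitions
-/

universe u v w t

open CategoryTheory TensorProduct

namespace Pool.Agent.Helper11.Obs

open Pool.Agent.Helper10 SmProjVar

variable {k : Type u} [Field k] {K : Type v} [Field K] (W : CohomologyData.{u, v, w} k K)
  (X : SmProjVar k) {P : ℕ} {V : Fin P → SmProjVar k} (E : Subspaces W V)
  (F : ∀ c : Fin P, ℕ → Submodule K (W.H (V c)))

/-- The determinant of the flags `F c` is numerically trivial (relative to `X`): for some bases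
`f (c, i)` of all the nonzero `F c i` (`i < N`), some `m > 0`, some numerically trivial class `z` on
`X ^ (l + 1) × ∏ V c`, with one factor `V c` for each `j < m`, each `(c, i)` and each member of
the basis `f (c, i)`, and some class `x` on `X ^ (l + 1)`, the number `⟨z, x × v 0 × v 1 × …⟩` is the
product over all `j < m` and all `(c, i)` of the determinants of the matrices `⟨v (j, c, i, s), f t⟩`,
for all `v (j, c, i, s) ∈ E c`. -/
def HasNumTrivialDeterminant : Prop :=
  ∃ (N m b l : ℕ) (r : Fin P × Fin N → ℕ) (f : ∀ y : Fin P × Fin N, Fin (r y) → W.H (V y.1))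
    (e : (Σ y : Fin m × Fin P × Fin N, Fin (r y.2)) ≃ Fin b)
    (z : W.H (wordVar X V l fun q => (e.symm q).1.2.1)) (x : W.H (power X l)),
    0 < m ∧ (∀ c, F c N = ⊥) ∧
    (∀ y, LinearIndependent K (f y) ∧ Submodule.span K (Set.range (f y)) = F y.1 y.2) ∧
    IsNumTrivial W _ z ∧
    ∀ v : (∀ q : (Σ y : Fin m × Fin P × Fin N, Fin (r y.2)), W.H (V q.1.2.1)),
      (∀ q, v q ∈ E q.1.2.1) → W.pairing _ z (extProd W x fun q => v (e.symm q)) =
        ∏ y, Matrix.det (Matrix.of fun s t => W.pairing (V y.2.1) (v ⟨y, s⟩) (f y.2 t))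

end Pool.Agent.Helper11.Obs
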