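import Mathlib
import Pool.Agent.Helper11.Dt.Types
import Pool.Agent.Helper11.Dt.Lin
import Pool.Agent.Helper11.Dt.Basis
import Pool.Agent.Helper11.Dt.Kpiece
import Pool.Agent.Helper11.Dt.DetClass

/-!
# The determinant of the canonical filtration is numerically trivial
-/

universe u v w t

open CategoryTheory TensorProduct Finset Matrix

namespace Pool.Agent.Helper11.Dt

open Pool.Agent.Helper10 hiding IsAlgAut parityPart
open SmProjVar SPre Pool.Agent.Helper10.GIT Pool.Agent.Helper11.Iso Pool.Agent.Helper11.Can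
open Pool.Agent.Helper11.Dr
open Pool.Agent.Helper11.Obs (IsPiece IsNumTrivial extProd wordClass prodVar prodFst prodProj
  power wordVar HasNumTrivialDeterminant)

variable {k : Type u} [Field k] {K : Type v} [Field K] [CharZero K]
  (W : WeilCohomology.{u, v, w} k K)

/-- **The determinant of the optimal filtration is numerically trivial.** -/
theorem det_of_optimal {X : SmProjVar k} {P : ℕ} {V : Fin P → SmProjVar k}
    {E : ∀ c, Submodule K (W.H (V c))} (hE : ∀ c, IsPiece W.toCohomologyData (V c) (E c))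
    {d : Fin P → ℕ} (e : ∀ c, Fin (d c) → W.H (V c)) {B : Mats d K}
    (hli : ∀ c, LinearIndependent K (e c))
    (hspan : ∀ c, Submodule.span K (Set.range (e c)) = E c)
    (hGB : ∀ c, gr W (e c) * B c = 1) {n : ℕ} (hn : 2 ≤ n)
    {h : Mats d (AlgebraicClosure K)} {γ : WSpace d}
    (ho : Optimal (ext (AlgebraicClosure K) (trunc n (kA W e (PowLike X))))
      (ext (AlgebraicClosure K) (trunc n (kN W e (PowLike X)))) h γ)
    {F₀ : ∀ c, ℝ → Submodule K (Fin (d c) → K)}
    (hF₀ : ∀ c a, Submodule.span (AlgebraicClosure K)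
      (embV (AlgebraicClosure K) '' (F₀ c a : Set (Fin (d c) → K))) = flag h γ c a)
    (hadm : Adm B (trunc n (kA W e (PowLike X))) (trunc n (kN W e (PowLike X))) F₀)
    {D : ℕ} (hD : 0 < D) (hDγ : ∀ l, ∃ m : ℤ, (D : ℝ) * γ l = m)
    {F : ∀ c, ℝ → Submodule K (W.H (V c))}
    (hF : ∀ c a, F c a = (F₀ c a).comap (coorK W (e c)) ⊓ E c)
    (hne : ∃ c a, 0 < a ∧ F c a ≠ ⊥) :
    HasNumTrivialDeterminant W.toCohomologyData X E
      fun c i => F c (((i + 1 : ℕ) : ℝ) / D) := by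
  classical
  have hD' : (0 : ℝ) < D := by exact_mod_cast hD
  let κ := AlgebraicClosure K
  -- weights over `K`
  obtain ⟨g, γ₀, ha₀, hFg, -⟩ := hadm.exists_weights (G := fun c => gr W (e c)) hGB
  have hinj : Function.Injective (algebraMap K κ) := (algebraMap K κ).injective
  have hdetg : ∀ c, ((g c).map (algebraMap K κ)).det ≠ 0 := (ha₀.ext κ).det
  have hflag : ∀ c a, flag (fun c => (g c).map (algebraMap K κ)) γ₀ c a = flag h γ c a := by
    intro c a
    rw [← hF₀ c a, hFg c a, span_flag κ ha₀.det]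
  have hgram : ∀ c, mten c (gr W (e c)) ∈ trunc n (kA W e (PowLike X)) (two c) := fun c =>
    ⟨gram_mem W e (PowLike.refl X) c, hn⟩
  have ho₁ := optimal_of_flag_eq ho hdetg (fun c => (gr W (e c)).map (algebraMap K κ))
    (fun c => (B c).map (algebraMap K κ)) (fun c => by
      rw [← Matrix.map_mul, hGB, Matrix.map_one _ (map_zero _) (map_one _)])
    (fun c => ⟨_, hgram c, emb_mten κ c _⟩) hflag
  -- the new bases
  set e' := chg W g e with he'
  have hli' : ∀ c, LinearIndependent K (e' c) := fun c =>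
    linearIndependent_chg W ha₀.det e c (hli c)
  have hspan' : ∀ c, Submodule.span K (Set.range (e' c)) = E c := fun c => by
    rw [he', span_chg W ha₀.det e c, hspan]
  have heE : ∀ c b, e' c b ∈ E c := fun c b => by
    rw [← hspan' c]
    exact Submodule.subset_span ⟨b, rfl⟩
  choose B' hGB' hpiece using fun c => kpiece_of_basis W (hE c) (e' c) (hli' c) (hspan' c)
  have ho' : Optimal (ext κ (trunc n (kA W e' (PowLike X))))
      (ext κ (trunc n (kN W e' (PowLike X)))) 1 γ₀ :=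
    optimal_change hdetg (ext_act (kA_chg W g e _ n)) (ext_act (kN_chg W g e _ n)) ho₁
  -- the filtrations in terms of the new bases
  have hcoor : ∀ c y, coorK W (e' c) y = (g c).mulVec (coorK W (e c) y) := by
    intro c y
    funext b
    rw [coorK_apply, Matrix.mulVec, dotProduct]
    change W.trL (V c) (y * chg W g e c b) = _
    unfold chg
    rw [Finset.mul_sum, map_sum]
    refine sum_congr rfl fun a _ => ?_
    rw [mul_smul_comm, map_smul, smul_eq_mul]
    rfl
  have hFmem : ∀ c a y, y ∈ F c a ↔ (∀ b, γ₀ ⟨c, b⟩ < a → W.pairing (V c) y (e' c b) = 0) ∧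
      y ∈ E c := by
    intro c a y
    rw [hF c a, hFg c a]
    refine and_congr_left fun _ => ?_
    change (∀ b, γ₀ ⟨c, b⟩ < a → (g c).mulVec (coorK W (e c) y) b = 0) ↔ _
    rw [← hcoor]
    rfl
  -- integrality
  have hint : ∀ l, ∃ m : ℤ, (D : ℝ) * γ₀ l = m := by
    rintro ⟨c, b⟩
    refine ⟨⌈(D : ℝ) * γ₀ ⟨c, b⟩⌉, le_antisymm (Int.le_ceil _) ?_⟩
    have h1 := single_mem_flag hdetg (γ := γ₀) (c := c) (a := γ₀ ⟨c, b⟩) (b := b) le_rfl
    rw [hflag, flag_ceil hD hDγ, ← hflag] at h1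
    by_contra hlt
    have h2 := h1 b (by
      rw [lt_div_iff₀ hD', mul_comm]
      exact not_le.mp hlt)
    rw [Matrix.mulVec_mulVec, Matrix.mul_nonsing_inv _ (isUnit_iff_ne_zero.mpr (hdetg c)),
      Matrix.one_mulVec, Pi.single_eq_same] at h2
    exact one_ne_zero h2
  obtain ⟨M, hM⟩ : ∃ M : ℕ, ∀ l, |(D : ℝ) * γ₀ l| ≤ M := by
    obtain ⟨M, hM⟩ := (Set.finite_range (fun l : (Σ c : Fin P, Fin (d c)) =>
      |(D : ℝ) * γ₀ l|)).bddAbove
    obtain ⟨M', hM'⟩ := exists_nat_ge M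
    exact ⟨M', fun l => (hM ⟨l, rfl⟩).trans hM'⟩
  -- the blocks
  let tt : Fin P × Fin M → ℝ := fun x => (((x.2 : ℕ) + 1 : ℕ) : ℝ) / D
  let Bl : ∀ x : Fin P × Fin M, Finset (Fin (d x.1)) := fun x =>
    univ.filter fun b => γ₀ ⟨x.1, b⟩ ≤ -tt x
  let len : Fin P × Fin M → ℕ := fun x => #(Bl x)
  let L : ∀ x : Fin P × Fin M, Fin (len x) → Fin (d x.1) := fun x s =>
    ((Bl x).equivFin.symm s : Fin (d x.1))
  have hL : ∀ x, Function.Injective (L x) := fun x =>
    Subtype.val_injective.comp (Bl x).equivFin.symm.injective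
  have hLt : ∀ x b, b ∈ Set.range (L x) ↔ γ₀ ⟨x.1, b⟩ ≤ -tt x := by
    intro x b
    have h1 : b ∈ Bl x ↔ γ₀ ⟨x.1, b⟩ ≤ -tt x := by simp [Bl]
    rw [← h1]
    constructor
    · rintro ⟨s, rfl⟩
      exact ((Bl x).equivFin.symm s).2
    · intro hb
      exact ⟨(Bl x).equivFin ⟨b, hb⟩, by simp [L]⟩
  let eN := Fintype.equivFin (Σ x : Fin P × Fin M, Fin (len x))
  have hNA : ∀ χ, trunc n (kN W e' (PowLike X)) χ ⊆ trunc n (kA W e' (PowLike X)) χ := fun χ =>
    trunc_le (kN_subset_kA W e' _ χ)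
  have hemp : ∀ χ : Shape P, n < χ.1 → trunc n (kA W e' (PowLike X)) χ = ∅ := fun χ hχ => by
    rw [Set.eq_empty_iff_forall_notMem]
    exact fun z hz => absurd hz.2 (not_le.mpr hχ)
  obtain ⟨I, _, χ, S, _, cl, σ, z, t, hmix, ⟨r₂, hr₂⟩, hcard, hpf⟩ := exists_mixed hNA hemp
    (fun c => gr W (e' c)) B' hGB' (fun c => ⟨gram_mem W e' (PowLike.refl X) c, hn⟩) ho' hD hint
    hM eN L hL hLt
  obtain ⟨I', _, χ₁, J, σ', z₁, hz₁A, hz₁N, hJ, hpf'⟩ := exists_sorted hNA _ B' cl σ z t hmix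
  -- weights
  have had := ho'.1
  have hwA : ∀ χ, ∀ z ∈ trunc n (kA W e' (PowLike X)) χ, ∀ w : Word d χ, z w ≠ 0 →
      0 ≤ wgt γ₀ ⟨χ, w⟩ := by
    intro χ z hz w hw
    refine had.nonneg ⟨χ, w⟩ ⟨emb κ z, ⟨z, hz, rfl⟩, ?_⟩
    rw [act_sh_one]
    exact fun h0 => hw (hinj (by rw [map_zero]; exact h0))
  have hwN : ∀ χ, ∀ z ∈ trunc n (kN W e' (PowLike X)) χ, ∀ w : Word d χ, z w ≠ 0 →
      1 ≤ wgt γ₀ ⟨χ, w⟩ := by
    intro χ z hz w hw
    refine had.one_le ⟨χ, w⟩ ⟨emb κ z, ⟨z, hz, rfl⟩, ?_⟩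
    rw [act_sh_one]
    exact fun h0 => hw (hinj (by rw [map_zero]; exact h0))
  have hdetG : ∀ c, (gr W (e' c)).det ≠ 0 := by
    intro c h0
    have h1 := congrArg Matrix.det (hGB' c)
    rw [Matrix.det_mul, h0, zero_mul, Matrix.det_one] at h1
    exact zero_ne_one h1
  have hgw := fun c => gram_weights had c ((gr W (e' c)).map (algebraMap K κ)) (by
    have h1 : ((gr W (e' c)).map (algebraMap K κ)).det = algebraMap K κ (gr W (e' c)).det :=
      (RingHom.map_det _ _).symm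
    rw [h1]
    exact fun h0 => hdetG c (hinj (by rw [h0, map_zero])))
    ⟨_, ⟨gram_mem W e' (PowLike.refl X) c, hn⟩, emb_mten κ c _⟩
  have hG : ∀ c i j, gr W (e' c) i j ≠ 0 → 0 ≤ γ₀ ⟨c, i⟩ + γ₀ ⟨c, j⟩ := by
    intro c i j hij
    refine (hgw c).1 i j ?_
    rw [Pi.one_apply, Matrix.transpose_one, Matrix.one_mul, Matrix.mul_one]
    exact fun h0 => hij (hinj (by rw [map_zero]; exact h0))
  have hB : ∀ c i j, B' c i j ≠ 0 → γ₀ ⟨c, i⟩ + γ₀ ⟨c, j⟩ ≤ 0 := by
    intro c i j hij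
    refine (hgw c).2 i j ?_
    have h1 : (gr W (e' c)).map (algebraMap K κ) * (B' c).map (algebraMap K κ) = 1 := by
      rw [← Matrix.map_mul, hGB', Matrix.map_one _ (map_zero _) (map_one _)]
    rw [Pi.one_apply, Matrix.transpose_one, Matrix.one_mul, Matrix.mul_one,
      Matrix.inv_eq_right_inv h1]
    exact fun h0 => hij (hinj (by rw [map_zero]; exact h0))
  -- some block is not empty
  have hω : 0 < -(∑ q : (Σ x : Fin P × Fin M, Fin (len x)), γ₀ ⟨q.1.1, L q.1 q.2⟩) := by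
    have hneg : ∀ q : (Σ x : Fin P × Fin M, Fin (len x)), γ₀ ⟨q.1.1, L q.1 q.2⟩ < 0 := by
      rintro ⟨x, s⟩
      have h1 := (hLt x (L x s)).mp ⟨s, rfl⟩
      have h2 : 0 < tt x := div_pos (by positivity) hD'
      change γ₀ ⟨x.1, L x s⟩ < 0
      linarith
    have hex : ∃ q : (Σ x : Fin P × Fin M, Fin (len x)), True := by
      by_contra hcon
      push Not at hcon
      -- all weights are nonnegative, and therefore zero
      have h0 : ∀ c b, 0 ≤ γ₀ ⟨c, b⟩ := by
        intro c b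
        by_contra hlt
        obtain ⟨i, hi⟩ := hint ⟨c, b⟩
        have h1 : (i : ℝ) < 0 := by
          rw [← hi]
          exact mul_neg_of_pos_of_neg hD' (not_le.mp hlt)
        have h2 : i ≤ -1 := by
          have : i < 0 := by exact_mod_cast h1
          omega
        have hM1 : 1 ≤ M := by
          have h3 := hM ⟨c, b⟩
          rw [hi] at h3
          have h4 : (1 : ℝ) ≤ |(i : ℝ)| := by
            rw [abs_of_neg h1]
            have : (i : ℝ) ≤ -1 := by exact_mod_cast h2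
            linarith
          exact_mod_cast h4.trans h3
        have h3 : γ₀ ⟨c, b⟩ ≤ -tt (c, ⟨0, hM1⟩) := by
          have h4 : tt (c, ⟨0, hM1⟩) = 1 / D := by simp [tt]
          rw [h4, ← neg_div, le_div_iff₀ hD', mul_comm, hi]
          exact_mod_cast h2
        obtain ⟨s, -⟩ := (hLt (c, ⟨0, hM1⟩) b).mpr h3
        exact hcon ⟨_, s⟩
      have h1 : ∀ c b, γ₀ ⟨c, b⟩ = 0 := fun c b =>
        (Finset.sum_eq_zero_iff_of_nonneg fun b _ => h0 c b).mp (had.sum c) b (mem_univ b)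
      obtain ⟨c, a, ha, hFne⟩ := hne
      refine hFne ?_
      rw [eq_bot_iff]
      intro y hy
      rw [hFmem] at hy
      have h2 : coorK W (e' c) y = 0 := funext fun b => hy.1 b (by rw [h1]; exact ha)
      have h3 := clsK_coorK W (e' c) (hGB' c) (y := y) (by rw [hspan']; exact hy.2)
      rw [h2, map_zero] at h3
      rw [Submodule.mem_bot, h3]
    obtain ⟨q, -⟩ := hex
    rw [neg_pos]
    exact Finset.sum_neg (fun q _ => hneg q) ⟨q, mem_univ q⟩
  -- the number of copies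
  obtain ⟨m, hm⟩ : ∃ m : ℕ, #{r | t r = 2} = m + 1 :=
    ⟨#{r | t r = 2} - 1, by
      have h1 : 0 < #{r | t r = 2} := card_pos.mpr ⟨r₂, by simp [hr₂]⟩
      omega⟩
  rw [hm] at hcard
  have hJ' : (#J : ℝ) = #{r | t r = 1} := by rw [hJ]
  rw [← hJ'] at hcard
  have hpf'' : pform B' cl σ' (sumTen z₁ fun _ => bdet (fun x : Fin P × Fin M => x.1) eN L) ≠ 0 := by
    rw [hpf']
    exact hpf
  clear hpf' hpf hmix hJ hJ' hr₂
  revert σ'
  rw [hm]
  intro σ' hpf''
  have hJne : J.Nonempty := by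
    rw [← card_pos]
    have h1 : 0 < ((m + 1 : ℕ) : ℝ) *
        -(∑ q : (Σ x : Fin P × Fin M, Fin (len x)), γ₀ ⟨q.1.1, L q.1 q.2⟩) :=
      mul_pos (by positivity) hω
    exact_mod_cast h1.trans_le hcard
  let e'' := Fintype.equivFin (Σ y : Fin (m + 1) × Fin P × Fin M, Fin (len y.2))
  obtain ⟨l, x, Z, hZ, hZv⟩ := exists_det_class W (X := X) hE e' heE hpiece hB hwA hwN
    (fun x : Fin P × Fin M => x.1) eN L hL (fun x => -tt x) hLt cl σ' z₁ J hz₁A hz₁N hJne hcard
    hpf'' e''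
  refine ⟨M, m + 1, _, l, len, fun y s => e' y.1 (L y s), e'', Z, x, Nat.succ_pos m, fun c => ?_,
    fun y => ⟨?_, ?_⟩, hZ, hZv⟩
  · -- the flags vanish for large indices
    rw [eq_bot_iff]
    intro y hy
    rw [hFmem] at hy
    have h2 : coorK W (e' c) y = 0 := funext fun b => hy.1 b (by
      rw [lt_div_iff₀ hD', mul_comm]
      refine lt_of_le_of_lt ((le_abs_self _).trans (hM _)) ?_
      push_cast
      linarith)
    have h3 := clsK_coorK W (e' c) (hGB' c) (y := y) (by rw [hspan']; exact hy.2)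
    rw [h2, map_zero] at h3
    rw [Submodule.mem_bot, h3]
  · exact (hli' y.1).comp (L y) (hL y)
  · -- the span
    refine le_antisymm ?_ fun u hu => ?_
    · rw [Submodule.span_le]
      rintro _ ⟨s, rfl⟩
      rw [SetLike.mem_coe, hFmem]
      refine ⟨fun b hb => ?_, heE _ _⟩
      by_contra hne
      have h1 := hG y.1 (L y s) b hne
      have h2 := (hLt y (L y s)).mp ⟨s, rfl⟩
      have h3 : tt y = ((((y.2 : ℕ) + 1 : ℕ) : ℝ)) / D := rfl
      rw [h3] at h2
      linarith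
    · rw [hFmem] at hu
      have h1 := clsK_coorK W (e' y.1) (hGB' y.1) (y := u) (by rw [hspan']; exact hu.2)
      rw [← h1, clsK_apply]
      refine Submodule.sum_mem _ fun a _ => ?_
      by_cases ha : (coorK W (e' y.1) u ᵥ* B' y.1) a = 0
      · rw [ha, zero_smul]
        exact Submodule.zero_mem _
      · refine Submodule.smul_mem _ _ ?_
        have ha' : ∑ b, coorK W (e' y.1) u b * B' y.1 b a ≠ 0 := ha
        obtain ⟨b, -, hb⟩ := exists_ne_zero_of_sum_ne_zero ha'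
        have h2 : ¬ γ₀ ⟨y.1, b⟩ < tt y := fun hlt => hb (by
          rw [show coorK W (e' y.1) u b = 0 from hu.1 b hlt, zero_mul])
        have h3 := hB y.1 b a (right_ne_zero_of_mul hb)
        obtain ⟨s, hs⟩ := (hLt y a).mpr (by push Not at h2; linarith)
        exact Submodule.subset_span ⟨s, by rw [← hs]⟩

end Pool.Agent.Helper11.Dt
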