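import Mathlib
import Pool.Agent.Helper11.CanThm
import Pool.Agent.Helper11.Dr.Rel2
import Pool.Agent.Helper11.Dt.Final

/-!
# Canonical filtrations of cohomology, with the determinants
-/

universe u v w t

open CategoryTheory TensorProduct Finset Matrix

namespace Pool.Agent.Helper11.Dt

open Pool.Agent.Helper10 hiding IsAlgAut parityPart
open SmProjVar SPre Pool.Agent.Helper10.GIT Pool.Agent.Helper11.Iso Pool.Agent.Helper11.Can
open Pool.Agent.Helper11.Dr
open Pool.Agent.Helper11.Obs (power wordClass extProd IsPiece IsNumTrivial IsAdmissible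
  IsCanonical IsTrivial NumTrivialOrthogonal SpannedBy prodVar prodFst prodProj filNorm
  IsSymmetry Stabilises IsDetOn eigenvalueGroup HasNumTrivialDeterminant)

variable {k : Type u} [Field k] {K : Type v} [Field K] [CharZero K]
  (W : WeilCohomology.{u, v, w} k K)

/-- **Canonical filtrations** -/
theorem exists_canonical3 {X : SmProjVar k} (hX : ∀ n, W.StandardD (power X n)) {P : ℕ}
    (V : Fin P → SmProjVar k) (E : ∀ c, Submodule K (W.H (V c)))
    (hE : ∀ c, IsPiece W.toCohomologyData (V c) (E c)) {n : ℕ} (hn : 2 ≤ n) :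
    ∃ F : ∀ c, ℝ → Submodule K (W.H (V c)),
      IsCanonical.{u, v, w, t} W.toCohomologyData X V E n F ∧
        (NumTrivialOrthogonal W.toCohomologyData X V E n → IsTrivial W.toCohomologyData F) ∧
        ∃ D : ℕ, 0 < D ∧ (∀ c a, F c a = F c ((⌈(D : ℝ) * a⌉ : ℝ) / D)) ∧
          (∀ (Ω : Type t) [Field Ω] [Algebra K Ω] [IsAlgClosed Ω]
            (g : ∀ X : SmProjVar k, Ω ⊗[K] W.H X → Ω ⊗[K] W.H X) (χ : Ω),
            IsSymmetry W.toCohomologyData Ω g χ → (∀ c, Stabilises Ω (g (V c)) (E c)) →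
            (∀ c a, Stabilises Ω (g (V c)) (F c a)) →
            ∀ (N : ℕ) (δ : Fin P → Fin N → Ωˣ), (∀ c, F c (((N + 1 : ℕ) : ℝ) / D) = ⊥) →
            (∀ c (i : Fin N), IsDetOn Ω (g (V c)) (F c ((((i : ℕ) + 1 : ℕ) : ℝ) / D))
              (δ c i : Ω)) → ∃ m : ℕ, 0 < m ∧ (∏ c, ∏ i, δ c i) ^ m ∈
                eigenvalueGroup W.toCohomologyData X Ω g χ) ∧
          (¬ IsTrivial W.toCohomologyData F → HasNumTrivialDeterminant W.toCohomologyData X E
            fun c i => F c (((i + 1 : ℕ) : ℝ) / D)) := by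
  classical
  choose d e B hli hspan hgram hpiece using fun c => exists_kpiece W (hE c)
  let 𝒳 : SmProjVar k → Prop := PowLike X
  have hGB : ∀ c, gr W (e c) * B c = 1 := hgram
  have hBG : ∀ c, B c * gr W (e c) = 1 := fun c => mul_eq_one_comm.mp (hGB c)
  have hDP : (W.toSPre K).DP X := Obs.dp_of_power W K hX
  have h𝒳 : DClass (W.toSPre K) 𝒳 := ⟨fun A hA => (hA.dp hDP) 0, fun A B hA hB => hA.prod hB⟩
  have hpow : ∀ m, 𝒳 (power X m) := Obs.powLike_power X
  -- contractions vanish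
  have hpz : PZero B (trunc n (kA W e 𝒳)) (trunc n (kN W e 𝒳)) := by
    refine pZero_of_ext (Ω := K) ?_
    have h1 : (fun c => (B c).map (algebraMap K K)) = B := by
      funext c
      ext i j
      rfl
    rw [h1]
    have h2 := pZero_fam h𝒳 (e := oneF W e K) hpiece
      (fun T X hX p => exists_prodT h𝒳.prod T X hX p) (fun T {I} _ {s} ε {b m} σ sg hsg =>
        exists_reorder _ ε σ sg hsg)
    intro I _ χ S _ cl σ z hz hzN
    refine h2 I χ S cl σ z (fun r => ?_) ?_
    · obtain ⟨z', hz', hz''⟩ := hz r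
      exact ext_kA_subset W e 𝒳 K (χ r) ⟨z', hz'.1, hz''⟩
    · obtain ⟨r, z', hz', hz''⟩ := hzN
      exact ⟨r, ext_kN_subset W e 𝒳 K (χ r) ⟨z', hz'.1, hz''⟩⟩
  obtain ⟨F₀, hopt, γopt, hoopt, hFopt, ⟨⟨M, hM⟩, hdual, hvan⟩, hmin, hcon, hsym, htriv⟩ :=
    exists_filtration2.{v, t}
    (A := trunc n (kA W e 𝒳)) (N := trunc n (kN W e 𝒳))
    (fun χ => trunc_le (kN_subset_kA W e 𝒳 χ)) (n := n) (fun χ hχ => by
      rw [Set.eq_empty_iff_forall_notMem]
      exact fun z hz => absurd hz.2 (not_le.mpr hχ)) (fun c => gr W (e c)) B hGB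
    (fun c => ⟨gram_mem W e (PowLike.refl X) c, hn⟩) hpz
  -- the filtrations
  let F : ∀ c, ℝ → Submodule K (W.H (V c)) := fun c a =>
    (F₀ c a).comap (coorK W (e c)) ⊓ E c
  have hFmem : ∀ c a y, y ∈ F c a ↔ coorK W (e c) y ∈ F₀ c a ∧ y ∈ E c := fun c a y => Iff.rfl
  have hcls : ∀ c y, y ∈ E c → clsK W (e c) (B c) (coorK W (e c) y) = y := fun c y hy =>
    clsK_coorK W (e c) (hGB c) (by rw [hspan c]; exact hy)
  have hclsE : ∀ c x, clsK W (e c) (B c) x ∈ E c := fun c x => by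
    have := clsK_mem W (e c) (B c) x
    rwa [hspan c] at this
  have hcc : ∀ c x, coorK W (e c) (clsK W (e c) (B c) x) = x := fun c x =>
    coorK_clsK W (e c) (hGB c) x
  have hclsF : ∀ c a x, x ∈ F₀ c a → clsK W (e c) (B c) x ∈ F c a := fun c a x hx =>
    ⟨by change coorK W (e c) (clsK W (e c) (B c) x) ∈ F₀ c a; rw [hcc]; exact hx, hclsE c x⟩
  have hinj : ∀ c, Function.Injective (clsK W (e c) (B c)) := fun c x y hxy => by
    rw [← hcc c x, hxy, hcc]
  have hFmap : ∀ c a, F c a = (F₀ c a).map (clsK W (e c) (B c)) := by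
    intro c a
    refine le_antisymm (fun y hy => ⟨coorK W (e c) y, hy.1, hcls c y hy.2⟩) ?_
    rintro _ ⟨x, hx, rfl⟩
    exact hclsF c a x hx
  -- minimality
  have hmin' : ∀ F', IsAdmissible W.toCohomologyData X V E n F' →
      ∑ c, filNorm (F c) ≤ ∑ c, filNorm (F' c) ∧
        (∑ c, filNorm (F' c) = ∑ c, filNorm (F c) → F' = F) := by
    intro F' hF'
    let F₁ : ∀ c, ℝ → Submodule K (Fin (d c) → K) := fun c a =>
      (F' c a).comap (clsK W (e c) (B c))
    have hF₁map : ∀ c a, F' c a = (F₁ c a).map (clsK W (e c) (B c)) := by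
      intro c a
      have h1 : ∀ y ∈ F' c a, clsK W (e c) (B c) (coorK W (e c) y) ∈ F' c a := fun y hy => by
        rw [hcls c y (hF'.le c a hy)]
        exact hy
      refine le_antisymm
        (fun y hy => ⟨coorK W (e c) y, h1 y hy, hcls c y (hF'.le c a hy)⟩) ?_
      rintro _ ⟨x, hx, rfl⟩
      exact hx
    have hadm : Adm B (trunc n (kA W e 𝒳)) (trunc n (kN W e 𝒳)) F₁ := by
      refine ⟨?_, fun c a x => ?_, ?_⟩
      · obtain ⟨M, hM⟩ := hF'.bounded
        refine ⟨M, fun c => ?_⟩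
        rw [eq_bot_iff]
        intro x hx
        have h1 : clsK W (e c) (B c) x ∈ F' c M := hx
        rw [hM c, Submodule.mem_bot] at h1
        rw [Submodule.mem_bot]
        exact hinj c (by rw [h1, map_zero])
      · change clsK W (e c) (B c) x ∈ F' c a ↔ _
        rw [hF'.dual c a _ (hclsE c x)]
        constructor
        · intro h a' ha' y hy
          have h1 := h a' ha' _ hy
          rwa [pairing_clsK, hcc] at h1
        · intro h a' ha' y hy
          rw [hF₁map] at hy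
          obtain ⟨y, hy, rfl⟩ := hy
          rw [pairing_clsK, hcc]
          exact h a' ha' y hy
      · rintro χ z a x hx (⟨⟨⟨T, A, p, f, r, y, hA, hr, rfl⟩, hb⟩, ha⟩ |
          ⟨⟨⟨T, A, p, f, r, y, hA, hr, hr0, rfl⟩, hb⟩, ha⟩)
        · obtain ⟨m, q, y', hy'⟩ := wordClass_retract W hA p f y
          rw [sum_kten, hy']
          exact hF'.alg T _ r _ hr ha ⟨m, χ.1, q, y', χ.2, f, a, _, hb, hx, rfl, rfl⟩
        · obtain ⟨m, q, y', hy'⟩ := wordClass_retract W hA p f y
          rw [sum_kten, hy']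
          exact hF'.num T _ r _ ⟨hr, hr0⟩ ha ⟨m, χ.1, q, y', χ.2, f, a, _, hb, hx, rfl, rfl⟩
    have h1 : ∀ c, filNorm (F c) = filNorm (F₀ c) := fun c => by
      rw [← filNorm_map (hinj c) (F₀ c)]
      congr 1
      funext a
      exact hFmap c a
    have h2 : ∀ c, filNorm (F' c) = filNorm (F₁ c) := fun c => by
      rw [← filNorm_map (hinj c) (F₁ c)]
      congr 1
      funext a
      exact hF₁map c a
    simp only [h1, h2]
    refine ⟨(hmin F₁ hadm).1, fun heq => ?_⟩
    have h3 := (hmin F₁ hadm).2 heq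
    funext c a
    rw [hF₁map, hFmap, h3]
  refine ⟨F, ⟨⟨?_, ⟨M, ?_⟩, ?_, ?_, ?_⟩, fun F' hF' => (hmin' F' hF').1,
    fun F' hF' => (hmin' F' hF').2, ?_, ?_⟩, ?_, ?_⟩
  · exact fun c a => inf_le_right
  · intro c
    rw [eq_bot_iff]
    rintro y ⟨hy, hyE⟩
    have h1 : coorK W (e c) y ∈ F₀ c M := hy
    rw [hM c, Submodule.mem_bot] at h1
    rw [Submodule.mem_bot, ← hcls c y hyE, h1, map_zero]
  · -- duality
    intro c a y hy
    rw [hFmem, and_iff_left hy, hdual]
    constructor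
    · intro h a' ha' x hx
      rw [← hcls c y hy, pairing_clsK]
      exact h a' ha' _ hx.1
    · intro h a' ha' x hx
      have h1 := h a' ha' _ (hclsF c a' x hx)
      rw [← hcls c y hy, pairing_clsK, hcc] at h1
      exact h1
  · -- algebraic classes
    rintro T _ z _ hz ha ⟨m, b, p, x, c, f, a, v, hb, hv, rfl, rfl⟩
    have h1 := hvan ⟨b, c⟩ (kten W e p f z x) a (fun i => coorK W (e (c i)) (v i))
      (fun i => (hv i).1) (.inl ⟨⟨⟨T, _, p, f, z, x, hpow m, hz, rfl⟩, hb⟩, ha⟩)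
    rw [sum_kten] at h1
    have h2 : (fun i => clsK W (e (c i)) (B (c i)) (coorK W (e (c i)) (v i))) = v := by
      funext i
      exact hcls (c i) (v i) (hv i).2
    rw [← h1]
    congr 1
    congr 1
    exact h2.symm
  · -- numerically trivial classes
    rintro T _ z _ hz ha ⟨m, b, p, x, c, f, a, v, hb, hv, rfl, rfl⟩
    have h1 := hvan ⟨b, c⟩ (kten W e p f z x) a (fun i => coorK W (e (c i)) (v i))
      (fun i => (hv i).1) (.inr ⟨⟨⟨T, _, p, f, z, x, hpow m, hz.1, hz.2, rfl⟩, hb⟩, ha⟩)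
    rw [sum_kten] at h1
    have h2 : (fun i => clsK W (e (c i)) (B (c i)) (coorK W (e (c i)) (v i))) = v := by
      funext i
      exact hcls (c i) (v i) (hv i).2
    rw [← h1]
    congr 1
    congr 1
    exact h2.symm
  · -- symmetries
    intro Ω _ _ g χ hg hgE c a y hy
    let γ : (W.toSPre Ω).Sym := W.symSPre Ω (Obs.isSymmetry W Ω hg)
    have hspanΩ : ∀ c, ∀ y ∈ Obs.bc W Ω (E c),
        y ∈ Submodule.span Ω (Set.range (oneF W e Ω c)) := by
      intro c y hy
      refine Obs.bc_induction W Ω (p := fun y => y ∈ Submodule.span Ω (Set.range (oneF W e Ω c)))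
        (fun y hy => ?_) (Submodule.zero_mem _) (fun _ _ => Submodule.add_mem _)
        (fun a _ => Submodule.smul_mem _ a) hy
      rw [← hspan c] at hy
      obtain ⟨v, rfl⟩ := (Submodule.mem_span_range_iff_exists_fun K).mp hy
      rw [one_sum]
      refine Submodule.sum_mem _ fun b _ => ?_
      rw [one_smul']
      exact Submodule.smul_mem _ _ (Submodule.subset_span ⟨b, rfl⟩)
    have hmemE : ∀ c b, e c b ∈ E c := fun c b => by
      rw [← hspan c]; exact Submodule.subset_span ⟨b, rfl⟩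
    have hρ : ∀ c, ∃ ρ : Matrix (Fin (d c)) (Fin (d c)) Ω, ∀ b,
        γ.g (V c) (oneF W e Ω c b) = ∑ a, ρ a b • oneF W e Ω c a := fun c =>
      exists_matrix_of_span fun b => hspanΩ c _ (hgE c _ (hmemE c b))
    choose ρ hρ using hρ
    have hGΩ : ∀ c, gmat (W.toSPre Ω) (oneF W e Ω c) = (gr W (e c)).map (algebraMap K Ω) := by
      intro c
      ext i j
      rw [gmat_apply]
      exact Obs.tr_one_mul W Ω _ _
    have hGBΩ : ∀ c, gmat (W.toSPre Ω) (oneF W e Ω c) * (B c).map (algebraMap K Ω) = 1 := by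
      intro c
      rw [hGΩ, ← Matrix.map_mul, hGB, Matrix.map_one _ (map_zero _) (map_one _)]
    have hdet : ∀ c, (ρ c).det ≠ 0 := fun c => sym_det (hGBΩ c) γ (hρ c)
    have hext : ∀ {C : Family d K} {χ : Shape P}, χ.1 ≤ n → ext Ω C χ ⊆ ext Ω (trunc n C) χ := by
      rintro C χ hχ _ ⟨z, hz, rfl⟩
      exact ⟨z, ⟨hz, hχ⟩, rfl⟩
    have hmain := hsym Ω (fun c => (ρ c).transpose)
      (fun c => by rw [Matrix.det_transpose]; exact hdet c)
      (fun χ z hz => Submodule.span_mono (hext hz.2) (famA_subset_span W e 𝒳 Ω χ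
        (sym_famA γ ρ hρ (ext_kA_subset W e 𝒳 Ω χ ⟨z, hz.1, rfl⟩))))
      (fun χ z hz => Submodule.span_mono (hext hz.2) (famN_subset_span W e 𝒳 Ω χ
        (sym_famN γ ρ hρ (ext_kN_subset W e 𝒳 Ω χ ⟨z, hz.1, rfl⟩))))
    set S : Submodule Ω (Fin (d c) → Ω) :=
      Submodule.span Ω (embV Ω '' (F₀ c a : Set (Fin (d c) → K))) with hS
    have hstab : ∀ z ∈ S, (ρ c)ᵀ *ᵥ z ∈ S := by
      intro z hz
      induction hz using Submodule.span_induction with
      | mem z hz =>
        obtain ⟨x, hx, rfl⟩ := hz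
        exact hmain c a x hx
      | zero => rw [Matrix.mulVec_zero]; exact S.zero_mem
      | add x y _ _ hx hy => rw [Matrix.mulVec_add]; exact S.add_mem hx hy
      | smul r x _ hx => rw [Matrix.mulVec_smul]; exact S.smul_mem r hx
    obtain ⟨l, hl⟩ := sym_coor γ (hdet c) (hρ c)
    have h1 : coor (W.toSPre Ω) (oneF W e Ω c) (γ.g (V c) (Obs.one W Ω y)) ∈ S := by
      rw [hl]
      refine S.smul_mem _ (stable_inv (hdet c) hstab _ (Submodule.subset_span ⟨_, hy.1, ?_⟩))
      funext b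
      rw [coor_apply]
      exact (Obs.tr_one_mul W Ω _ _).symm
    have h2 : γ.g (V c) (Obs.one W Ω y) ∈ Submodule.span Ω (Set.range (oneF W e Ω c)) :=
      hspanΩ c _ (hgE c y hy.2)
    have h3 := cls_coor' (hGBΩ c) h2
    change γ.g (V c) (Obs.one W Ω y) ∈ Obs.bc W Ω (F c a)
    rw [← h3]
    generalize coor (W.toSPre Ω) (oneF W e Ω c) (γ.g (V c) (Obs.one W Ω y)) = z at h1
    induction h1 using Submodule.span_induction with
    | mem z hz =>
      obtain ⟨x, hx, rfl⟩ := hz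
      have h4 := cls_embV W Ω (e c) (B c) x
      unfold oneF
      rw [h4]
      exact Obs.one_mem_bc W Ω (hclsF c a x hx)
    | zero => rw [cls_zero']; exact Submodule.zero_mem _
    | add x y _ _ hx hy => rw [cls_add']; exact Submodule.add_mem _ hx hy
    | smul r x _ hx => rw [cls_smul']; exact Submodule.smul_mem _ r hx
  · -- detection
    intro m b c hb z hz hz0 y hy hyE
    have hpar : ∀ i : Fin b, (∀ j, e (c i) j ∈ W.evK (V (c i))) ∨
        ∀ j, e (c i) j ∈ W.odK (V (c i)) := by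
      intro i
      obtain ⟨q, hq⟩ := (hE (c i)).parity
      have hmem : ∀ j, e (c i) j ∈ E (c i) := fun j => by
        rw [← hspan (c i)]; exact Submodule.subset_span ⟨j, rfl⟩
      by_cases hq2 : Even q
      · exact .inl fun j => Obs.parityPart_le_evK W hq2 (hq (hmem j))
      · exact .inr fun j => Obs.parityPart_le_odK W hq2 (hq (hmem j))
    have hyE' : y ∈ Submodule.span K {y | ∃ (x : W.H (power X m))
        (w : ∀ i, Fin (d (c i))), y = extProd W.toCohomologyData x fun i => e (c i) (w i)} := by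
      refine Submodule.span_le.mpr ?_ hyE
      rintro _ ⟨x, a, v, hv, -, rfl⟩
      have h1 : v = fun i => ∑ j, (coorK W (e (c i)) (v i) ᵥ* B (c i)) j • e (c i) j := by
        funext i
        rw [← clsK_apply, hcls _ _ (hv i)]
      rw [h1]
      change wordClass W.toCohomologyData _ _ _ _ ∈ _
      rw [wordClass_expand]
      exact Submodule.sum_mem _ fun w _ => Submodule.smul_mem _ _
        (Submodule.subset_span ⟨x, w, rfl⟩)
    obtain ⟨N, x, x', hexp⟩ := exists_expansion W (fun x v => tr_extProd W x v)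
      (fun i => e (c i)) (fun i => B (c i)) hpar (fun i => hGB (c i)) y hyE'
    rw [hexp z]
    refine sum_eq_zero fun j _ => ?_
    have h1 := hcon ⟨b, c⟩ (kten W e (prodFst _ _) (prodProj _ _) z (x j))
      (kten W e (prodFst _ _) (prodProj _ _) y (x' j))
      ⟨⟨_, _, _, _, z, x j, hpow m, hz, rfl⟩, hb⟩ ⟨⟨_, _, _, _, y, x' j, hpow m, hy, rfl⟩, hb⟩
      (fun a u hu ha => by
        rw [sum_kten]
        exact hz0 _ ⟨x j, a, _, fun i => hclsF _ _ _ (hu i), ha, rfl⟩)
    rw [← h1]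
    refine sum_congr rfl fun w _ => sum_congr rfl fun w' _ => ?_
    rw [kten_apply, kten_apply]
    rfl
  · -- the trivial case
    intro h0 c a ha
    have h1 : F₀ c a = ⊥ := by
      refine htriv ?_ c a ha
      rintro χ _ ⟨⟨T, A, p, f, r, x, hA, hr, hr0, rfl⟩, hb⟩
      funext w
      obtain ⟨m, q, x', hx'⟩ := wordClass_retract W hA p f x
      rw [kten_apply, Pi.zero_apply, hx']
      refine h0 T r _ ⟨hr, hr0⟩ ⟨m, χ.1, q, x', χ.2, f, fun _ => 0, _, hb, fun i => ?_,
        sum_const_zero, rfl⟩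
      change e (χ.2 i) (w i) ∈ E (χ.2 i)
      rw [← hspan (χ.2 i)]
      exact Submodule.subset_span ⟨w i, rfl⟩
    rw [eq_bot_iff]
    rintro y ⟨hy, hyE⟩
    have h2 : coorK W (e c) y ∈ F₀ c a := hy
    rw [h1, Submodule.mem_bot] at h2
    rw [Submodule.mem_bot, ← hcls c y hyE, h2, map_zero]
  · -- the relation
    obtain ⟨D, hD, hDγ⟩ := exists_denominator
      (ext_mono (AlgebraicClosure K) fun χ => trunc_le (kN_subset_kA W e 𝒳 χ))
      (ext_empty (AlgebraicClosure K) (A := trunc n (kA W e 𝒳)) (n := n) fun χ hχ => by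
        rw [Set.eq_empty_iff_forall_notMem]
        exact fun z hz => absurd hz.2 (not_le.mpr hχ)) hoopt
    have hjF₀ : ∀ c a, F₀ c a = F₀ c ((⌈(D : ℝ) * a⌉ : ℝ) / D) := by
      intro c a
      have h6 : ∀ {C : Submodule K (Fin (d c) → K)} {x : Fin (d c) → K}, x ∈ C ↔
          embV (AlgebraicClosure K) x ∈ Submodule.span (AlgebraicClosure K)
            (embV (AlgebraicClosure K) '' (C : Set (Fin (d c) → K))) := fun {C x} =>
        ⟨fun hx => Submodule.subset_span ⟨x, hx, rfl⟩, mem_of_embV_mem_span _⟩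
      ext x
      rw [h6, h6 (C := F₀ c ((⌈(D : ℝ) * a⌉ : ℝ) / D)), hFopt, hFopt, ← flag_ceil hD hDγ c a]
    refine ⟨D, hD, fun c a => ?_, ?_, fun hnt => ?_⟩
    · rw [hFmap c a, hjF₀ c a, ← hFmap]
    · intro Ω _ _ _ g χ hg hgE hgF N δ hN hδ
      refine exists_pow_mem_of_optimal W e hspan hGB hn hoopt hFopt hD hDγ
        (fun c a => inf_le_right) (fun c a => ?_) hg hgE hgF N δ hN hδ
      refine le_antisymm (fun x hx => ⟨clsK W (e c) (B c) x, hclsF c a x hx, hcc c x⟩) ?_
      rintro _ ⟨y, hy, rfl⟩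
      exact hy.1
    · refine det_of_optimal W hE e hli hspan hGB hn hoopt hFopt ⟨⟨M, hM⟩, hdual, hvan⟩ hD hDγ
        (fun c a => rfl) ?_
      by_contra h0
      push Not at h0
      exact hnt h0

end Pool.Agent.Helper11.Dt
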