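import Mathlib
import Pool.Agent.Helper11.Dt.Can3
import Pool.Agent.Helper11.Dr.Thm

/-!
# Flags with numerically trivial determinant
-/

universe u v w t

open CategoryTheory TensorProduct Finset

namespace Pool.Agent.Helper11.Dt

open Pool.Agent.Helper10 hiding IsAlgAut parityPart
open SmProjVar SPre Pool.Agent.Helper10.GIT Pool.Agent.Helper11.Iso Pool.Agent.Helper11.Can
open Pool.Agent.Helper11.Obs Pool.Agent.Helper11.Dr

variable {k : Type u} [Field k] {K : Type v} [Field K] [CharZero K]
  (W : WeilCohomology.{u, v, w} k K)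

/-- **The canonical filtration is related, and its determinant is numerically trivial.** -/
theorem exists_related_det {X : SmProjVar k} (hX : ∀ n, W.StandardD (power X n)) {P : ℕ}
    (V : Fin P → SmProjVar k) (E : ∀ c, Submodule K (W.H (V c)))
    (hE : ∀ c, IsPiece W.toCohomologyData (V c) (E c)) {n : ℕ} (hn : 2 ≤ n) :
    ∃ F : ∀ c, ℝ → Submodule K (W.H (V c)),
      IsCanonical.{u, v, w, t} W.toCohomologyData X V E n F ∧
        (NumTrivialOrthogonal W.toCohomologyData X V E n → IsTrivial W.toCohomologyData F) ∧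
        ∃ D, IsRelatedFiltration.{u, v, w, t} W.toCohomologyData X V E F D ∧
          (¬ IsTrivial W.toCohomologyData F → HasNumTrivialDeterminant W.toCohomologyData X E
            fun c i => F c (((i + 1 : ℕ) : ℝ) / D)) := by
  obtain ⟨F, hF, htriv, D, hD, hjump, hrel, hdet⟩ :=
    exists_canonical3.{u, v, w, t} W hX V E hE hn
  refine ⟨F, hF, htriv, D, ⟨hD, hjump, ?_⟩, hdet⟩
  have had := hF.admissible
  have hD' : (0 : ℝ) < D := by exact_mod_cast hD
  refine ⟨fun c i => had.le c _, fun c i j hij => ?_, ?_, fun c i => ?_, ?_, ?_, ?_⟩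
  · refine antitone_of_admissible had c ?_
    rw [div_le_div_iff_of_pos_right hD']
    exact_mod_cast Nat.succ_le_succ hij
  · obtain ⟨M, hM⟩ := had.bounded
    obtain ⟨N, hN⟩ := exists_nat_ge ((D : ℝ) * M)
    refine ⟨N, fun c => ?_⟩
    rw [eq_bot_iff, ← hM c]
    refine antitone_of_admissible had c ?_
    rw [le_div_iff₀ hD', mul_comm]
    refine hN.trans ?_
    exact_mod_cast Nat.le_succ N
  · exact isotropic_of_admissible had c (div_pos (by positivity) hD')
  · intro c c' u hu huE i y hy
    exact corr_of_admissible hE hn had hu huE _ hy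
  · intro Ω _ _ g χ hg hgE c i
    exact hF.stable Ω g χ hg hgE c _
  · intro Ω _ _ _ g χ hg hgE N δ hN hδ
    exact hrel Ω g χ hg hgE (fun c a => hF.stable Ω g χ hg hgE c a) N δ hN hδ

/-- linearly independent elements of a piece have a dual family in the piece -/
lemma exists_dual_family {V₀ : SmProjVar k} {E : Submodule K (W.H V₀)}
    (hE : IsPiece W.toCohomologyData V₀ E) {r : ℕ} {f : Fin r → W.H V₀}
    (hf : LinearIndependent K f) (hfE : ∀ s, f s ∈ E) :
    ∃ g : Fin r → W.H V₀, (∀ s, g s ∈ E) ∧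
      ∀ s t, W.pairing V₀ (g s) (f t) = if s = t then 1 else 0 := by
  classical
  obtain ⟨m, e, B, -, hspan, hgram, -⟩ := exists_kpiece W hE
  obtain ⟨p, hp⟩ := hE.parity
  have hnd : ∀ y ∈ E, (∀ x ∈ E, W.pairing V₀ x y = 0) → y = 0 := by
    intro y hy h
    have h1 : coorK W e y = 0 := funext fun j =>
      pairing_zero_symm W hp hy (h _ (by rw [← hspan]; exact Submodule.subset_span ⟨j, rfl⟩))
    have h2 := clsK_coorK W e (B := B) hgram (y := y) (by rw [hspan]; exact hy)
    rw [h1, map_zero] at h2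
    exact h2.symm
  let Φ : E →ₗ[K] (Fin r → K) := (LinearMap.pi fun t =>
    (W.trL V₀) ∘ₗ (LinearMap.mulRight K (f t))) ∘ₗ E.subtype
  have hΦ : ∀ y t, Φ y t = W.pairing V₀ (y : W.H V₀) (f t) := fun y t => rfl
  have hsurj : Function.Surjective Φ := by
    rw [← LinearMap.range_eq_top]
    by_contra hne
    obtain ⟨φ, hφ0, hφ⟩ := Submodule.exists_le_ker_of_lt_top _ (lt_top_iff_ne_top.mpr hne)
    apply hφ0
    have h1 : ∀ y : E, ∑ t, φ (Pi.single t 1) * Φ y t = 0 := by
      intro y
      have h2 : φ (Φ y) = 0 := hφ ⟨y, rfl⟩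
      rw [← h2]
      conv_rhs => rw [← LinearMap.sum_single_apply (φ := fun _ : Fin r => K) (v := Φ y), map_sum]
      refine sum_congr rfl fun t _ => ?_
      have h3 : (Pi.single t (Φ y t) : Fin r → K) = Φ y t • Pi.single t 1 := by
        rw [← Pi.single_smul, smul_eq_mul, mul_one]
      rw [h3, map_smul, smul_eq_mul, mul_comm]
    have h2 : ∑ t, φ (Pi.single t 1) • f t = 0 := by
      refine hnd _ (Submodule.sum_mem _ fun t _ => Submodule.smul_mem _ _ (hfE t)) fun x hx => ?_
      rw [pairing_sum]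
      simp only [pairing_smul]
      exact h1 ⟨x, hx⟩
    have h3 := Fintype.linearIndependent_iff.mp hf _ h2
    refine LinearMap.pi_ext' fun t => ?_
    ext
    simpa using h3 t
  choose g hg using fun s : Fin r => hsurj (Pi.single s 1)
  refine ⟨fun s => g s, fun s => (g s).2, fun s t => ?_⟩
  rw [← hΦ, hg, Pi.single_apply]
  simp [eq_comm]

/-- If numerically trivial classes are orthogonal to all words, no determinant is numerically
trivial. -/
theorem not_hasNumTrivialDeterminant {X : SmProjVar k} {P : ℕ} {V : Fin P → SmProjVar k}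
    {E : ∀ c, Submodule K (W.H (V c))} (hE : ∀ c, IsPiece W.toCohomologyData (V c) (E c))
    (h0 : ∀ n, NumTrivialOrthogonal W.toCohomologyData X V E n)
    {F : ∀ c : Fin P, ℕ → Submodule K (W.H (V c))} (hF : ∀ c i, F c i ≤ E c) :
    ¬ HasNumTrivialDeterminant W.toCohomologyData X E F := by
  classical
  rintro ⟨N, m, b, l, r, f, e, z, x, -, -, hf, hz, hv⟩
  have hfE : ∀ y s, f y s ∈ E y.1 := fun y s => hF y.1 y.2 (by
    rw [← (hf y).2]
    exact Submodule.subset_span ⟨s, rfl⟩)
  choose g hgE hg using fun y => exists_dual_family W (hE y.1) (hf y).1 (hfE y)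
  have h1 := hv (fun q => g q.1.2 q.2) fun q => hgE _ _
  have h2 := h0 b _ z _ hz ⟨l, b, prodFst _ _, x, fun q => (e.symm q).1.2.1, prodProj _ _,
    fun _ => 0, fun q => g (e.symm q).1.2 (e.symm q).2, le_rfl, fun q => hgE _ _,
    sum_const_zero, rfl⟩
  have h3 : ∏ y : Fin m × Fin P × Fin N, Matrix.det (Matrix.of fun s t =>
      W.pairing (V y.2.1) (g y.2 s) (f y.2 t)) = 1 := by
    refine prod_eq_one fun y _ => ?_
    have h4 : (Matrix.of fun s t => W.pairing (V y.2.1) (g y.2 s) (f y.2 t)) = 1 := by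
      ext s t
      rw [Matrix.of_apply, hg, Matrix.one_apply]
    rw [h4, Matrix.det_one]
  have h4 : (1 : K) = 0 := by
    rw [← h3, ← h2]
    exact h1.symm
  exact one_ne_zero h4

/-- **Numerically trivial classes are orthogonal to all words if and only if no related flags have
numerically trivial determinant.** -/
theorem orthogonal_iff {X : SmProjVar k} (hX : ∀ n, W.StandardD (power X n)) {P : ℕ}
    (V : Fin P → SmProjVar k) (E : ∀ c, Submodule K (W.H (V c)))
    (hE : ∀ c, IsPiece W.toCohomologyData (V c) (E c)) :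
    (∀ n, NumTrivialOrthogonal W.toCohomologyData X V E n) ↔
      ∀ F : ∀ c : Fin P, ℕ → Submodule K (W.H (V c)),
        AreRelatedFlags.{u, v, w, t} W.toCohomologyData X V E F →
        ¬ HasNumTrivialDeterminant W.toCohomologyData X E F := by
  refine ⟨fun h F hF => not_hasNumTrivialDeterminant W hE h hF.le, fun h n => ?_⟩
  obtain ⟨F, hF, -, D, hD, hdet⟩ := exists_related_det.{u, v, w, t} W hX V E hE
    (n := n + 2) (by omega)
  have h1 : IsTrivial W.toCohomologyData F := by
    by_contra hne
    exact h _ hD.related (hdet hne)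
  have h2 := numTrivialOrthogonal_of_trivial W hF.admissible h1
  rintro T z y hz ⟨m, b, p, x, c, f, a, v, hb, hv, ha, rfl⟩
  exact h2 T z _ hz ⟨m, b, p, x, c, f, a, v, hb.trans (by omega), hv, ha, rfl⟩

end Pool.Agent.Helper11.Dt
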